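import Mathlib
import Pool.Agent.H592R4.Core2

/-!
The number of planted instances on which a circuit changes its value, when the fully planted
instances need not be values of the input map at planted points.
-/

set_option linter.unusedSectionVars false

namespace Pool.Agent.K7.H17.SD

open Finset DomAC0 H568R2 SmallDepth H592R3 H592R3.Hp

section Mix
variable {I M T J : Type} [Fintype I] [DecidableEq I] [Fintype M] [DecidableEq M] [Fintype T]

/-- The input map of the mixed instances. -/
def mixMap (P : Finset M → J → Bool) : (M → Bool) → (J → Bool) :=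
  fun x => P (univ.filter (fun m => x m = true))

lemma mixMap_plant (P : Finset M → J → Bool) (A : Finset M) :
    mixMap P (plant (id : M → M) A (fun _ => false)) = P A := by
  unfold mixMap
  congr 1
  ext m
  unfold plant
  simp

lemma mb_mix (σ : (I → Bool) → (J → Bool)) (vr : M → I) (X : I → Bool) {k : ℕ}
    (P : Finset M → J → Bool)
    (hP : ∀ A : Finset M, A.card ≤ k → P A = σ (plant vr A X))
    (f : (J → Bool) → Bool) {H : Finset M} (hH : H.card ≤ k) :
    mb (pf (fun x => f (mixMap P x)) (id : M → M) (fun _ => false)) H =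
      mb (pf (fun x => f (σ x)) vr X) H := by
  apply mb_congr
  intro W hW
  show (if f (mixMap P (plant (id : M → M) W (fun _ => false))) = true then (1 : ℤ) else 0) =
    if f (σ (plant vr W X)) = true then 1 else 0
  rw [mixMap_plant, hP W ((Finset.card_le_card hW).trans hH)]

/-- A circuit that tells the fully planted instance from the empty one has a coefficient of small
or medium size. -/
lemma sens_mix (C : Circuit J) (σ : (I → Bool) → (J → Bool)) (vr : T → M → I)
    {d L : ℕ} (hL : 2 ≤ L) (hdepth : C.depth ≤ d) (a : T) (X : I → Bool)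
    (P : Finset M → J → Bool)
    (hP : ∀ A : Finset M, A.card ≤ 2 * L - 2 → P A = σ (plant (vr a) A X))
    (hlow : ∀ j : J, Low 1 (fun A : Finset M => if P A j = true then (1 : ℤ) else 0))
    (h : C.eval (P ∅) ≠ C.eval (P univ)) :
    ∃ θ : Ty C M, EvX C σ vr d L a X θ := by
  have hin : ∀ j : J, Low 1 (pf (fun x => mixMap P x j) (id : M → M) (fun _ => false)) := by
    intro j
    have : pf (fun x => mixMap P x j) (id : M → M) (fun _ => false) =
        fun A : Finset M => if P A j = true then (1 : ℤ) else 0 := by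
      funext A
      show (if mixMap P (plant (id : M → M) A (fun _ => false)) j = true then (1 : ℤ) else 0) = _
      rw [mixMap_plant]
    rw [this]
    exact hlow j
  by_cases hLs : Low (L - 1) (pf (fun x => C.eval (mixMap P x)) (id : M → M) (fun _ => false))
  · obtain ⟨A, _, hne, hm⟩ := mb_nonconst univ
      (pf (fun x => C.eval (mixMap P x)) (id : M → M) (fun _ => false)) (by
      show (if C.eval (mixMap P (plant (id : M → M) univ (fun _ => false))) = true
        then (1 : ℤ) else 0) ≠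
        if C.eval (mixMap P (plant (id : M → M) ∅ (fun _ => false))) = true then 1 else 0
      rw [mixMap_plant, mixMap_plant]
      intro hcon
      apply h
      by_cases c1 : C.eval (P ∅) = true
      · rw [if_pos c1] at hcon
        by_cases c2 : C.eval (P univ) = true
        · rw [c1, c2]
        · rw [if_neg c2] at hcon
          norm_num at hcon
      · rw [if_neg c1] at hcon
        by_cases c2 : C.eval (P univ) = true
        · rw [if_pos c2] at hcon
          norm_num at hcon
        · rw [Bool.not_eq_true] at c1 c2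
          rw [c1, c2])
    have hA : A.card < L := by
      by_contra hcon
      exact hm (hLs A (by omega))
    refine ⟨Sum.inr A, ⟨Finset.card_pos.2 hne, hA⟩, ?_⟩
    rw [mb_mix σ (vr a) X P hP (fun z => C.eval z) (by omega)] at hm
    exact hm
  · obtain ⟨g, hg, i, hi, H, h1, h2, h3⟩ := medium3 C (mixMap P) (id : M → M) hL
      (fun _ => false) hin hdepth hLs
    refine ⟨Sum.inl (g, H), ⟨hg, h1, h2⟩, i + 1, by omega, ?_⟩
    rw [mb_mix σ (vr a) X P hP (fun z => gfun C g z ((pl C g).take (i + 1))) h2] at h3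
    exact h3

end Mix

section Mo
variable {I M T J : Type} [Fintype I] [DecidableEq I] [Fintype M] [DecidableEq M] [Fintype T]

open Classical in
/-- The number of planted instances to which the circuit is sensitive. -/
noncomputable def cntP (pln : T → (I → Bool) → (J → Bool)) (σ : (I → Bool) → (J → Bool))
    (C : Circuit J) (X : I → Bool) : ℝ :=
  ∑ a : T, if C.eval (σ X) ≠ C.eval (pln a X) then (1 : ℝ) else 0

lemma cntP_nonneg (pln : T → (I → Bool) → (J → Bool)) (σ : (I → Bool) → (J → Bool)) (C : Circuit J)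
    (X : I → Bool) : 0 ≤ cntP pln σ C X := by
  unfold cntP
  refine Finset.sum_nonneg fun a _ => ?_
  split_ifs <;> norm_num

lemma cntP_le (pln : T → (I → Bool) → (J → Bool)) (σ : (I → Bool) → (J → Bool)) (C : Circuit J)
    (X : I → Bool) : cntP pln σ C X ≤ Fintype.card T := by
  classical
  unfold cntP
  calc _ ≤ ∑ _a : T, (1 : ℝ) := by
        refine Finset.sum_le_sum fun a _ => ?_
        split_ifs <;> norm_num
    _ = Fintype.card T := by
        rw [Finset.sum_const, Finset.card_univ, nsmul_eq_mul, mul_one]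

open Classical in
/-- The weighted number of planted instances to which a circuit is sensitive. -/
theorem circ_weighted [Fintype J] (pln : T → (I → Bool) → (J → Bool)) (vr : T → M → I) (hvr : ∀ a, Function.Injective (vr a))
    (κ : Finset M → ℕ)
    (hκ : ∀ (H : Finset M) (V : Finset I),
      (univ.filter (fun a : T => H.image (vr a) = V)).card ≤ κ H)
    (C : Circuit J) (σ : (I → Bool) → (J → Bool))
    {h : ℕ} {d τ : ℕ} (hτ : 3 ≤ τ)
    (hdepth : C.depth ≤ d) {S : ℕ} (hS : C.size ≤ S) {L l : ℕ}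
    (hsen : ∀ (a : T) (X : I → Bool), C.eval (σ X) ≠ C.eval (pln a X) →
      ∃ θ : Ty C M, EvX C σ vr d L a X θ)
    (hlen : Fintype.card J + S + 2 ≤ 2 ^ l)
    {y q0 q c ε ε0 : ℝ} (hy0 : 0 < y) (hy1 : y ≤ 1) (hq00 : 0 < q0) (hq01 : q0 ≤ 1)
    (hq : q = q0 * (1 / (τ : ℝ)) ^ d)
    (hbas : Ex (vp y) (fun Y : I → Bool => Ex (wq q0) (fun ρ : Restr I =>
      if ¬ Bas (fun x => σ (mask Y x)) h ρ then (1 : ℝ) else 0)) ≤ ε0)
    (hcyq : 2 ≤ c * (y * q)) (hc : 1 ≤ c)
    (hε : ε0 + d * ((S * (Fintype.card J + S + 1) : ℕ) : ℝ) *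
      (12 * h * (1 / (τ : ℝ))) ^ (h + 1) ≤ ε) {Bg Bs : ℝ}
    (hBg : ∑ H ∈ univ.filter (fun H : Finset M => L ≤ H.card ∧ H.card ≤ 2 * L - 2),
      c ^ H.card * (((2 * (h * l)) ^ H.card * κ H : ℕ) : ℝ) ≤ Bg)
    (hBs : ∑ H ∈ univ.filter (fun H : Finset M => 1 ≤ H.card ∧ H.card < L),
      c ^ H.card * (((2 * h) ^ H.card * κ H : ℕ) : ℝ) ≤ Bs)
    (ψ : (I → Bool) → ℝ) (hψ0 : ∀ X, 0 ≤ ψ X) {B0 : ℝ} (hψ1 : ∀ X, ψ X ≤ B0) :
    Ex (vp (y / 2)) (fun X => ψ X * cntP pln σ C X) ≤
    (S * Bg + Bs) * Ex (vp (y / 2)) ψ +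
      B0 * ((Fintype.card T : ℝ) * (((S : ℝ) + 1) * 2 ^ (Fintype.card M) *
        c ^ (2 * L))) * ε := by
  have hτ1 : (1 : ℝ) ≤ τ := by exact_mod_cast (by omega : 1 ≤ τ)
  have hτ0 : (0 : ℝ) < τ := by linarith
  have hq0 : 0 < q := by rw [hq]; positivity
  have hq1 : q ≤ 1 := by
    rw [hq]
    apply mul_le_one₀ hq01 (by positivity)
    apply pow_le_one₀ (by positivity)
    rw [div_le_one hτ0]; exact hτ1
  have h13 : (1 : ℝ) / τ ≤ 1 / 3 := by
    apply one_div_le_one_div_of_le (by norm_num)
    exact_mod_cast hτ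
  have hB00 : 0 ≤ B0 := (hψ0 (fun _ => false)).trans (hψ1 _)
  obtain ⟨Bd, hBd⟩ : ∃ Bd : ℝ, Bd = S * Bg + Bs := ⟨_, rfl⟩
  obtain ⟨Big, hBig⟩ : ∃ Big : ℝ, Big = (Fintype.card T : ℝ) *
    (((S : ℝ) + 1) * 2 ^ (Fintype.card M) * c ^ (2 * L)) := ⟨_, rfl⟩
  rw [← hBd, ← hBig]
  have hc0 : 0 ≤ c := by linarith
  have hBig0 : 0 ≤ Big := by rw [hBig]; positivity
  have hBs0 : 0 ≤ Bs := le_trans (Finset.sum_nonneg fun H _ => by positivity) hBs
  have hBg0 : 0 ≤ Bg := le_trans (Finset.sum_nonneg fun H _ => by positivity) hBg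
  have hBd0 : 0 ≤ Bd := by rw [hBd]; positivity
  -- step 1: pointwise
  have hp0 : 0 ≤ y / 2 := by linarith
  have hp1 : y / 2 ≤ 1 := by linarith
  have hstep1 : Ex (vp (y / 2)) (fun X => ψ X * cntP pln σ C X) ≤
      Ex (vp (y / 2)) (fun X => ψ X * ∑ k : T × Ty C M,
        (if EvX C σ vr d L k.1 X k.2 then (1 : ℝ) else 0)) := by
    apply Ex_mono (vp_nonneg hp0 hp1)
    intro X
    apply mul_le_mul_of_nonneg_left _ (hψ0 X)
    unfold cntP
    rw [Fintype.sum_prod_type]
    refine Finset.sum_le_sum fun a _ => ?_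
    have hnn : ∀ θ ∈ (univ : Finset (Ty C M)), (0 : ℝ) ≤
        (if EvX C σ vr d L a X θ then (1 : ℝ) else 0) := by
      intro θ _
      split_ifs <;> norm_num
    by_cases hs : C.eval (σ X) ≠ C.eval (pln a X)
    · rw [if_pos hs]
      obtain ⟨θ, hθ⟩ := hsen a X hs
      refine le_trans ?_ (Finset.single_le_sum hnn (Finset.mem_univ θ))
      rw [if_pos hθ]
    · rw [if_neg hs]
      exact Finset.sum_nonneg hnn
  refine hstep1.trans ?_
  -- step 2: comparison
  have hstep2 := weighted_compare (I := I) (K := T × Ty C M)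
    (fun k X => if EvX C σ vr d L k.1 X k.2 then (1 : ℝ) else 0)
    (fun k ω => if EvR C σ vr d L k.1 (fun i => (ω i).1) (fun i => (ω i).2.1)
      (fun i => (ω i).2.2) k.2 then (1 : ℝ) else 0)
    (fun k => k.2.hset.image (vr k.1)) (by intro k X; split_ifs <;> norm_num)
    (by intro k X; split_ifs <;> norm_num) (by
      intro k ω hω
      by_cases h1 : EvX C σ vr d L k.1 (fun i => h3 (ω i)) k.2
      · rw [if_pos h1, if_pos (evX_evR C σ vr hvr d L k.1 k.2 ω hω h1)]
      · rw [if_neg h1]
        split_ifs <;> norm_num) hy0 hy1 hq0 hq1 hcyq hc ψ hψ0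
  refine hstep2.trans ?_
  -- step 3: bound for each point
  have hpt : ∀ ω : I → Bool × (Option Bool × Bool),
      ψ (fun i => h3 (ω i)) * ∑ k : T × Ty C M,
        c ^ (k.2.hset.image (vr k.1)).card *
        (if EvR C σ vr d L k.1 (fun i => (ω i).1) (fun i => (ω i).2.1)
        (fun i => (ω i).2.2) k.2 then (1 : ℝ) else 0) ≤
      Bd * ψ (fun i => h3 (ω i)) + (B0 * Big) *
        (if ¬ (Bas (fun x => σ (mask (fun i => (ω i).1) x)) h (fun i => (ω i).2.1) ∧
          H592R3.Good C (fun x => σ (mask (fun i => (ω i).1) x)) h d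
        (fun i => (ω i).2.1)) then (1 : ℝ) else 0) := by
    intro ω
    have hcard : ∀ k : T × Ty C M,
        (k.2.hset.image (vr k.1)).card = k.2.hset.card := fun k =>
      Finset.card_image_of_injective _ (hvr k.1)
    simp only [hcard]
    have hψω := hψ0 (fun i => h3 (ω i))
    by_cases hG : Bas (fun x => σ (mask (fun i => (ω i).1) x)) h (fun i => (ω i).2.1) ∧
      H592R3.Good C (fun x => σ (mask (fun i => (ω i).1) x)) h d (fun i => (ω i).2.1)
    · rw [if_neg (not_not.2 hG), mul_zero, add_zero, mul_comm Bd]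
      apply mul_le_mul_of_nonneg_left _ hψω
      rw [hBd]
      exact good_bound vr hvr κ hκ C σ hdepth hS hlen hc hBg hBs _ _ _ hG.1 hG.2
    · rw [if_pos hG, mul_one]
      have h1 := all_bound (L := L) (d := d) vr C σ hS hc
        (fun i => (ω i).1) (fun i => (ω i).2.1) (fun i => (ω i).2.2)
      rw [← hBig] at h1
      have h2 : 0 ≤ Bd * ψ (fun i => h3 (ω i)) := mul_nonneg hBd0 hψω
      have h4 : ψ (fun i => h3 (ω i)) * ∑ k : T × Ty C M,
          c ^ k.2.hset.card *
          (if EvR C σ vr d L k.1 (fun i => (ω i).1) (fun i => (ω i).2.1)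
          (fun i => (ω i).2.2) k.2 then (1 : ℝ) else 0) ≤ B0 * Big :=
        (mul_le_mul_of_nonneg_left h1 hψω).trans (mul_le_mul_of_nonneg_right (hψ1 _) hBig0)
      linarith
  refine (Ex_mono (w3_nonneg hy0.le hy1 hq0.le hq1) hpt).trans ?_
  rw [Ex_add, Ex_smul (w3 y q) (B0 * Big), Ex_smul (w3 y q) Bd]
  have hpush : Ex (w3 y q) (fun ω : I → Bool × (Option Bool × Bool) =>
      ψ (fun i => h3 (ω i))) = Ex (vp (y / 2)) ψ :=
    Ex_push (I := I) h3 (w3 y q) (vp (y / 2)) (fun b => h3_push b) ψ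
  rw [hpush]
  have hfail : Ex (w3 y q) (fun ω : I → Bool × (Option Bool × Bool) =>
      (if ¬ (Bas (fun x => σ (mask (fun i => (ω i).1) x)) h (fun i => (ω i).2.1) ∧
          H592R3.Good C (fun x => σ (mask (fun i => (ω i).1) x)) h d
        (fun i => (ω i).2.1)) then (1 : ℝ) else 0)) ≤ ε := by
    obtain ⟨R, hR⟩ : ∃ R : ℝ, R = d * ((S * (Fintype.card J + S + 1) : ℕ) : ℝ) *
      (12 * h * (1 / (τ : ℝ))) ^ (h + 1) := ⟨_, rfl⟩
    have e1 : Ex (w3 y q) (fun ω : I → Bool × (Option Bool × Bool) =>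
      (if ¬ (Bas (fun x => σ (mask (fun i => (ω i).1) x)) h (fun i => (ω i).2.1) ∧
          H592R3.Good C (fun x => σ (mask (fun i => (ω i).1) x)) h d
        (fun i => (ω i).2.1)) then (1 : ℝ) else 0)) =
        Ex (vp y) (fun Y => Ex (fun e : Option Bool × Bool => wq q e.1 * vp (1 / 2) e.2)
          (fun ω => (if ¬ (Bas (fun x => σ (mask Y x)) h (fun i => (ω i).1) ∧
            H592R3.Good C (fun x => σ (mask Y x)) h d
        (fun i => (ω i).1)) then (1 : ℝ) else 0))) :=
      Ex_prod (I := I) (vp y)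
        (fun e : Option Bool × Bool => wq q e.1 * vp (1 / 2) e.2) _
    rw [e1]
    have e2 : ∀ Y : I → Bool,
        Ex (fun e : Option Bool × Bool => wq q e.1 * vp (1 / 2) e.2)
          (fun ω : I → Option Bool × Bool =>
            (if ¬ (Bas (fun x => σ (mask Y x)) h (fun i => (ω i).1) ∧
              H592R3.Good C (fun x => σ (mask Y x)) h d
        (fun i => (ω i).1)) then (1 : ℝ) else 0)) ≤
        Ex (wq q0) (fun ρ : Restr I =>
          if ¬ Bas (fun x => σ (mask Y x)) h ρ then (1 : ℝ) else 0) + R := by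
      intro Y
      refine (Ex_prod (I := I) (wq q) (vp (1 / 2)) _).le.trans ?_
      have e3 : ∀ ρ : Restr I, Ex (vp (1 / 2))
          (fun _ : I → Bool =>
            (if ¬ (Bas (fun x => σ (mask Y x)) h ρ ∧
              H592R3.Good C (fun x => σ (mask Y x)) h d ρ) then (1 : ℝ) else 0)) =
            (if ¬ (Bas (fun x => σ (mask Y x)) h ρ ∧
              H592R3.Good C (fun x => σ (mask Y x)) h d ρ) then (1 : ℝ) else 0) :=
        fun ρ => Ex_const (vp_sum (1 / 2)) _
      have h3 := collapse2 C (fun x => σ (mask Y x))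
        (q := 1 / (τ : ℝ)) (by positivity) h13 hq00.le hq01 (h := h) (le_refl _) d
      rw [← hq] at h3
      refine le_trans (le_of_eq ?_) (h3.trans (le_trans ?_ (le_refl _)))
      · congr 1
        funext ρ
        exact e3 ρ
      · apply add_le_add (le_refl _)
        rw [hR]
        apply mul_le_mul_of_nonneg_right _ (by positivity)
        apply mul_le_mul_of_nonneg_left _ (by positivity)
        have : C.size * (Fintype.card J + C.size + 1) ≤ S * (Fintype.card J + S + 1) :=
          Nat.mul_le_mul hS (by omega)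
        exact_mod_cast this
    refine (Ex_mono (vp_nonneg hy0.le hy1) e2).trans ?_
    rw [Ex_add, Ex_const (I := I) (vp_sum y) R]
    rw [hR]
    linarith
  have h5 := mul_le_mul_of_nonneg_left hfail (by positivity : 0 ≤ B0 * Big)
  linarith

end Mo

end Pool.Agent.K7.H17.SD
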