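import Mathlib

/-!
Triangle detection in graphs that are given as lists of their edges.
-/

namespace Pool.Agent.K7.H17.SD

/-- The length of the names of the vertices of graphs with `n` edges. -/
def wlen (n : ℕ) : ℕ := Nat.size n + 2

/-- The input bits: place in the list, end of the edge, position in the name. -/
abbrev EBit (n : ℕ) : Type := Fin n × Bool × Fin (wlen n)

/-- The vertices: words of `wlen n` bits. -/
abbrev Vtx (n : ℕ) : Type := Fin (wlen n) → Bool

/-- One end of the edge at the place `t` of the list. -/
def vtx {n : ℕ} (z : EBit n → Bool) (t : Fin n) (s : Bool) : Vtx n := fun d => z (t, s, d)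

/-- The edge at the place `t` of the list. -/
def edge {n : ℕ} (z : EBit n → Bool) (t : Fin n) : Sym2 (Vtx n) := s(vtx z t false, vtx z t true)

/-- The graph. -/
def graph {n : ℕ} (z : EBit n → Bool) : SimpleGraph (Vtx n) :=
  SimpleGraph.fromEdgeSet (Set.range (edge z))

/-- The input is a list of the `n` different edges of a simple graph. -/
def ValidList {n : ℕ} (z : EBit n → Bool) : Prop :=
  Function.Injective (edge z) ∧ ∀ t, vtx z t false ≠ vtx z t true

/-- The graph has a triangle: three pairwise adjacent vertices. -/
def HasTriangle {n : ℕ} (z : EBit n → Bool) : Prop :=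
  ∃ a b c : Vtx n, (graph z).Adj a b ∧ (graph z).Adj b c ∧ (graph z).Adj a c

end Pool.Agent.K7.H17.SD
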