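import Mathlib
import Pool.Agent.K7.H17.SD.TriDefs

/-!
Edge lists with numbers as vertices.
-/

namespace Pool.Agent.K7.H17.SD

theorem card_vtx (n : ℕ) (hn : 1 ≤ n) : Fintype.card (Vtx n) ≤ 8 * n := by
  have h : Fintype.card (Vtx n) = 2 ^ (Nat.size n + 2) := by
    simp only [Fintype.card_pi, Fintype.card_bool, Finset.prod_const, Finset.card_univ, wlen]
    congr 1
    exact Fintype.card_fin _
  rw [h, pow_add]
  obtain ⟨s, hs⟩ : ∃ s, Nat.size n = s + 1 := ⟨Nat.size n - 1, by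
    have := Nat.size_pos.mpr hn
    omega⟩
  have h1 : s < Nat.size n := by omega
  rw [Nat.lt_size] at h1
  rw [hs, pow_succ]
  omega

theorem card_ebit (n : ℕ) (hn : 8 ≤ n) : Fintype.card (EBit n) ≤ n ^ 4 := by
  rw [Fintype.card_prod, Fintype.card_prod, Fintype.card_fin, Fintype.card_bool, Fintype.card_fin,
    wlen]
  have h1 : Nat.size n ≤ n := Nat.size_le.2 Nat.lt_two_pow_self
  have h2 : n * (2 * (Nat.size n + 2)) ≤ n * (4 * n) := Nat.mul_le_mul_left _ (by omega)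
  have h3 : n ^ 4 = n * (n * n * n) := by ring
  rw [h3]
  refine h2.trans (Nat.mul_le_mul_left _ ?_)
  have h4 : 4 ≤ n * n := by nlinarith
  exact Nat.mul_le_mul_right _ h4

/-- The name of a number. -/
def nm (n : ℕ) (v : ℕ) : Vtx n := fun d => v.testBit d

lemma nm_inj {n v w : ℕ} (hv : v < 2 ^ wlen n) (hw : w < 2 ^ wlen n) (h : nm n v = nm n w) :
    v = w := by
  apply Nat.eq_of_testBit_eq
  intro i
  by_cases hi : i < wlen n
  · exact congrFun h ⟨i, hi⟩
  · have h1 : 2 ^ wlen n ≤ 2 ^ i := Nat.pow_le_pow_right (by norm_num) (by omega)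
    rw [Nat.testBit_lt_two_pow (hv.trans_le h1), Nat.testBit_lt_two_pow (hw.trans_le h1)]

/-- The input bits of an edge list. -/
def bits {n : ℕ} (x : Fin n → ℕ × ℕ) : EBit n → Bool :=
  fun b => (if b.2.1 = true then (x b.1).2 else (x b.1).1).testBit b.2.2

/-- An edge list: every edge has its smaller end first, and no edge occurs twice. -/
def Lst (N : ℕ) {n : ℕ} (x : Fin n → ℕ × ℕ) : Prop :=
  (∀ t, (x t).1 < (x t).2 ∧ (x t).2 < N) ∧ Function.Injective x

/-- A triangle in an edge list. -/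
def Tri {n : ℕ} (x : Fin n → ℕ × ℕ) : Prop :=
  ∃ i j k a b c, x i = (a, b) ∧ x j = (b, c) ∧ x k = (a, c)

variable {n : ℕ}

lemma vtx_bits (x : Fin n → ℕ × ℕ) (t : Fin n) (s : Bool) :
    vtx (bits x) t s = nm n (if s = true then (x t).2 else (x t).1) := rfl

lemma adj_bits {x : Fin n → ℕ × ℕ} (hx : Lst (2 ^ wlen n) x) (u v : Vtx n) :
    (graph (bits x)).Adj u v ↔ ∃ a b, u = nm n a ∧ v = nm n b ∧
      a < 2 ^ wlen n ∧ b < 2 ^ wlen n ∧ ∃ t, x t = (a, b) ∨ x t = (b, a) := by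
  unfold graph
  rw [SimpleGraph.fromEdgeSet_adj]
  constructor
  · rintro ⟨⟨t, ht⟩, hne⟩
    unfold edge at ht
    rw [Sym2.eq_iff, vtx_bits, vtx_bits] at ht
    have h1 := (hx.1 t).2
    have h2 := (hx.1 t).1
    rcases ht with ⟨e1, e2⟩ | ⟨e1, e2⟩
    · exact ⟨(x t).1, (x t).2, e1.symm, e2.symm, by omega, h1, t, Or.inl rfl⟩
    · exact ⟨(x t).2, (x t).1, e2.symm, e1.symm, h1, by omega, t, Or.inr rfl⟩
  · rintro ⟨a, b, rfl, rfl, ha, hb, t, ht⟩
    have h2 := (hx.1 t).1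
    have hne : a ≠ b := by
      rcases ht with ht | ht <;> rw [ht] at h2
      · exact ne_of_lt h2
      · exact (ne_of_lt h2).symm
    refine ⟨⟨t, ?_⟩, fun h => hne (nm_inj ha hb h)⟩
    unfold edge
    rw [Sym2.eq_iff, vtx_bits, vtx_bits]
    rcases ht with ht | ht <;> rw [ht]
    · exact Or.inl ⟨rfl, rfl⟩
    · exact Or.inr ⟨rfl, rfl⟩

lemma bits_valid {x : Fin n → ℕ × ℕ} (hx : Lst (2 ^ wlen n) x) : ValidList (bits x) := by
  constructor
  · intro t t' h
    unfold edge at h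
    rw [Sym2.eq_iff, vtx_bits, vtx_bits, vtx_bits, vtx_bits] at h
    have h1 := (hx.1 t).2
    have h2 := (hx.1 t).1
    have h3 := (hx.1 t').2
    have h4 := (hx.1 t').1
    rcases h with ⟨e1, e2⟩ | ⟨e1, e2⟩
    · have e3 : (x t).1 = (x t').1 := nm_inj (by omega) (by omega) e1
      have e4 : (x t).2 = (x t').2 := nm_inj h1 h3 e2
      exact hx.2 (Prod.ext e3 e4)
    · have e3 : (x t).1 = (x t').2 := nm_inj (by omega) (by omega) e1
      have e4 : (x t).2 = (x t').1 := nm_inj h1 (by omega) e2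
      omega
  · intro t h
    rw [vtx_bits, vtx_bits] at h
    have h1 := (hx.1 t).2
    have h2 := (hx.1 t).1
    have e3 : (x t).1 = (x t).2 := nm_inj (by omega) h1 h
    omega

lemma bits_tri {x : Fin n → ℕ × ℕ} (hx : Lst (2 ^ wlen n) x) :
    HasTriangle (bits x) ↔ Tri x := by
  have hlt : ∀ {t : Fin n} {a b : ℕ}, x t = (a, b) → a < b ∧ b < 2 ^ wlen n := by
    intro t a b h
    have := hx.1 t
    rw [h] at this
    exact this
  constructor
  · rintro ⟨u, v, w, h1, h2, h3⟩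
    rw [adj_bits hx] at h1 h2 h3
    obtain ⟨a, b, rfl, rfl, ha, hb, t1, h1⟩ := h1
    obtain ⟨b', c, e1, rfl, hb', hc, t2, h2⟩ := h2
    obtain ⟨a', c', e2, e3, ha', hc', t3, h3⟩ := h3
    obtain rfl := nm_inj hb hb' e1
    obtain rfl := nm_inj ha ha' e2
    obtain rfl := nm_inj hc hc' e3
    rcases h1 with h1 | h1 <;> rcases h2 with h2 | h2 <;> rcases h3 with h3 | h3 <;>
      have l1 := hlt h1 <;> have l2 := hlt h2 <;> have l3 := hlt h3
    · exact ⟨t1, t2, t3, a, b, c, h1, h2, h3⟩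
    · omega
    · exact ⟨t3, t2, t1, a, c, b, h3, h2, h1⟩
    · exact ⟨t3, t1, t2, c, a, b, h3, h1, h2⟩
    · exact ⟨t1, t3, t2, b, a, c, h1, h3, h2⟩
    · exact ⟨t2, t3, t1, b, c, a, h2, h3, h1⟩
    · omega
    · exact ⟨t2, t1, t3, c, b, a, h2, h1, h3⟩
  · rintro ⟨i, j, k, a, b, c, h1, h2, h3⟩
    have l1 := hlt h1
    have l2 := hlt h2
    have l3 := hlt h3
    refine ⟨nm n a, nm n b, nm n c, ?_, ?_, ?_⟩ <;> rw [adj_bits hx]
    · exact ⟨a, b, rfl, rfl, by omega, by omega, i, Or.inl h1⟩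
    · exact ⟨b, c, rfl, rfl, by omega, by omega, j, Or.inl h2⟩
    · exact ⟨a, c, rfl, rfl, by omega, by omega, k, Or.inl h3⟩

end Pool.Agent.K7.H17.SD
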