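import Mathlib
import Pool.Agent.K7.H17.SD.Bits

/-!
Random edge lists without triangles.
-/

namespace Pool.Agent.K7.H17.SD

open Finset

/-- The pairs of blocks of vertices; there is at most one edge for each of them. -/
abbrev Cel (g : ℕ) : Type := Fin 3 × (Fin g × Fin g)

/-- The triples of blocks. -/
abbrev Tri3 (g : ℕ) : Type := Fin g × (Fin g × Fin g)

/-- The ends of an edge in its blocks. -/
abbrev Vl (q : ℕ) : Type := Fin q × Fin q

section Defs
variable {g q n : ℕ}

/-- The pairs of blocks of a triple. -/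
def ixt (κ : Tri3 g) (h : Fin 3) : Fin g × Fin g :=
  if h = 0 then (κ.1, κ.2.1) else if h = 1 then (κ.2.1, κ.2.2) else (κ.2.2, κ.1)

/-- The cells of a triple. -/
def cel (κ : Tri3 g) (h : Fin 3) : Cel g := (h, ixt κ h)

/-- The edges of the triple form a triangle. -/
def Cl (D : Cel g → Option (Vl q)) (κ : Tri3 g) : Prop :=
  ∃ z : Fin 3 → Fin q, ∀ h : Fin 3, D (cel κ h) = some (z h, z (h + 1))

open Classical in
/-- The edges of the third kind that close a triangle are removed. -/
noncomputable def kp (D : Cel g → Option (Vl q)) : Cel g → Option (Vl q) := fun c =>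
  if c.1 = 2 ∧ ∃ β : Fin g, Cl D (c.2.2, (β, c.2.1)) then none else D c

/-- The edge with the given ends. -/
def raw (g q : ℕ) (c : Cel g) (s : Vl q) : ℕ × ℕ :=
  if c.1 = 0 then (c.2.1.val * q + s.1.val, g * q + (c.2.2.val * q + s.2.val))
  else if c.1 = 1 then (g * q + (c.2.1.val * q + s.1.val), 2 * (g * q) + (c.2.2.val * q + s.2.val))
  else (c.2.2.val * q + s.2.val, 2 * (g * q) + (c.2.1.val * q + s.1.val))

/-- An edge between two vertices that have no other neighbour. -/
def dum (g q : ℕ) {n : ℕ} (t : Fin n) : ℕ × ℕ := (3 * (g * q) + 2 * t, 3 * (g * q) + 2 * t + 1)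

/-- The word of a cell. -/
def word (e : Cel g ↪ Fin n) (c : Cel g) : Option (Vl q) → ℕ × ℕ
  | none => dum g q (e c)
  | some s => raw g q c s

/-- The edge list. -/
noncomputable def lst (e : Cel g ↪ Fin n) (D : Cel g → Option (Vl q)) : Fin n → ℕ × ℕ :=
  Function.extend e (fun c => word e c (D c)) (dum g q)

end Defs

section Basic
variable {g q n : ℕ}

lemma cel_inj (κ : Tri3 g) : Function.Injective (cel κ) := fun _ _ e => (Prod.mk.inj e).1

lemma ixt_share {κ τ : Tri3 g} {h h' : Fin 3} (hh : h ≠ h') (e : ixt κ h = ixt τ h)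
    (e' : ixt κ h' = ixt τ h') : κ = τ := by
  obtain ⟨a, b, c⟩ := κ
  obtain ⟨a', b', c'⟩ := τ
  fin_cases h <;> fin_cases h' <;> first
    | exact absurd rfl hh
    | (simp [ixt] at e e' ⊢; tauto)

lemma blk_lt {i s : ℕ} (hi : i < g) (hs : s < q) : i * q + s < g * q := by
  have h1 : (i + 1) * q ≤ g * q := Nat.mul_le_mul_right q (by omega)
  have h2 : (i + 1) * q = i * q + q := by ring
  omega

lemma blk_inj {i i' s s' : ℕ} (hs : s < q) (hs' : s' < q) (h : i * q + s = i' * q + s') :
    i = i' ∧ s = s' := by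
  have h1 : (i * q + s) / q = i := by
    rw [mul_comm, Nat.mul_add_div (by omega), Nat.div_eq_of_lt hs, add_zero]
  have h2 : (i' * q + s') / q = i' := by
    rw [mul_comm, Nat.mul_add_div (by omega), Nat.div_eq_of_lt hs', add_zero]
  have h3 : i = i' := by rw [← h1, h, h2]
  subst h3
  exact ⟨rfl, by omega⟩

/-- The shapes of the edges. -/
lemma raw_shape (k : Fin 3) (i j : Fin g) (s t : Fin q) {u v : ℕ}
    (h : raw g q (k, (i, j)) (s, t) = (u, v)) :
    (k = 0 ∧ u = i.val * q + s.val ∧ v = g * q + (j.val * q + t.val) ∧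
      i.val * q + s.val < g * q ∧ j.val * q + t.val < g * q) ∨
    (k = 1 ∧ u = g * q + (i.val * q + s.val) ∧ v = 2 * (g * q) + (j.val * q + t.val) ∧
      i.val * q + s.val < g * q ∧ j.val * q + t.val < g * q) ∨
    (k = 2 ∧ u = j.val * q + t.val ∧ v = 2 * (g * q) + (i.val * q + s.val) ∧
      i.val * q + s.val < g * q ∧ j.val * q + t.val < g * q) := by
  have h1 := blk_lt i.isLt s.isLt
  have h2 := blk_lt j.isLt t.isLt
  fin_cases k
  · obtain ⟨e1, e2⟩ := Prod.mk.inj h
    exact Or.inl ⟨rfl, e1.symm, e2.symm, h1, h2⟩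
  · obtain ⟨e1, e2⟩ := Prod.mk.inj h
    exact Or.inr (Or.inl ⟨rfl, e1.symm, e2.symm, h1, h2⟩)
  · obtain ⟨e1, e2⟩ := Prod.mk.inj h
    exact Or.inr (Or.inr ⟨rfl, e1.symm, e2.symm, h1, h2⟩)

lemma raw_inj {c c' : Cel g} {s s' : Vl q} (h : raw g q c s = raw g q c' s') : c = c' := by
  obtain ⟨k, i, j⟩ := c
  obtain ⟨k', i', j'⟩ := c'
  obtain ⟨s, t⟩ := s
  obtain ⟨s', t'⟩ := s'
  have key : ∀ (k k' : Fin 3) (i j i' j' : Fin g), k = k' → i.val = i'.val → j.val = j'.val →
      ((k, (i, j)) : Cel g) = (k', (i', j')) := by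
    intro k k' i j i' j' h1 h2 h3
    rw [h1, Fin.ext h2, Fin.ext h3]
  have hs := s.isLt
  have ht := t.isLt
  have hs' := s'.isLt
  have ht' := t'.isLt
  obtain ⟨u, v, huv⟩ : ∃ u v, raw g q (k, (i, j)) (s, t) = (u, v) := ⟨_, _, rfl⟩
  have a1 := raw_shape k i j s t huv
  have a2 := raw_shape k' i' j' s' t' (h ▸ huv)
  rcases a1 with ⟨hk, e1, e2, h1, h2⟩ | ⟨hk, e1, e2, h1, h2⟩ | ⟨hk, e1, e2, h1, h2⟩ <;>
  rcases a2 with ⟨hk', e1', e2', h1', h2'⟩ | ⟨hk', e1', e2', h1', h2'⟩ |
    ⟨hk', e1', e2', h1', h2'⟩ <;>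
  first
  | (exfalso; omega)
  | (obtain ⟨e3, _⟩ := blk_inj hs hs' (by omega : i.val * q + s.val = i'.val * q + s'.val)
     obtain ⟨e4, _⟩ := blk_inj ht ht' (by omega : j.val * q + t.val = j'.val * q + t'.val)
     exact key _ _ _ _ _ _ (hk.trans hk'.symm) e3 e4)

/-- The rows of the list. -/
lemma lst_cases (e : Cel g ↪ Fin n) (D : Cel g → Option (Vl q)) (t : Fin n) :
    (∃ c s, t = e c ∧ D c = some s ∧ lst e D t = raw g q c s) ∨ lst e D t = dum g q t := by
  by_cases h : ∃ c, e c = t
  · obtain ⟨c, rfl⟩ := h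
    have h1 : lst e D (e c) = word e c (D c) := e.injective.extend_apply _ _ _
    rw [h1]
    cases hD : D c with
    | none => exact Or.inr rfl
    | some s => exact Or.inl ⟨c, s, rfl, hD, rfl⟩
  · exact Or.inr (Function.extend_apply' _ _ _ h)

lemma lst_some (e : Cel g ↪ Fin n) {D : Cel g → Option (Vl q)} {c : Cel g} {s : Vl q}
    (h : D c = some s) : lst e D (e c) = raw g q c s := by
  have h1 : lst e D (e c) = word e c (D c) := e.injective.extend_apply _ _ _
  rw [h1, h]
  rfl

lemma raw_lt (c : Cel g) (s : Vl q) :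
    (raw g q c s).1 < (raw g q c s).2 ∧ (raw g q c s).2 < 3 * (g * q) := by
  obtain ⟨k, i, j⟩ := c
  obtain ⟨s, t⟩ := s
  obtain ⟨u, v, huv⟩ : ∃ u v, raw g q (k, (i, j)) (s, t) = (u, v) := ⟨_, _, rfl⟩
  have a1 := raw_shape k i j s t huv
  rw [huv]
  dsimp only
  omega

lemma lst_lst (e : Cel g ↪ Fin n) (D : Cel g → Option (Vl q)) (hgq : 3 * (g * q) ≤ n) :
    Lst (2 ^ wlen n) (lst e D) := by
  have hn : 4 * n < 2 ^ wlen n := by
    unfold wlen
    have := Nat.lt_size_self n
    rw [pow_add]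
    omega
  constructor
  · intro t
    have ht := t.isLt
    rcases lst_cases e D t with ⟨c, s, _, _, h⟩ | h
    · rw [h]
      have := raw_lt c s
      omega
    · rw [h]
      unfold dum
      dsimp only
      omega
  · intro t t' h
    rcases lst_cases e D t with ⟨c, s, h1, _, h2⟩ | h2 <;>
      rcases lst_cases e D t' with ⟨c', s', h1', _, h2'⟩ | h2' <;> rw [h2, h2'] at h
    · rw [h1, h1', raw_inj h]
    · have h3 := raw_lt c s
      rw [h] at h3
      unfold dum at h3
      dsimp only at h3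
      omega
    · have h3 := raw_lt c' s'
      rw [← h] at h3
      unfold dum at h3
      dsimp only at h3
      omega
    · unfold dum at h
      have h3 := (Prod.mk.inj h).1
      exact Fin.ext (by omega)

/-- A list whose edges close no triangle. -/
lemma lst_no (e : Cel g ↪ Fin n) (D : Cel g → Option (Vl q)) : ¬ Tri (lst e (kp D)) := by
  rintro ⟨t1, t2, t3, a, b, c, h1, h2, h3⟩
  rcases lst_cases e (kp D) t1 with ⟨⟨k, i, j⟩, ⟨s, t⟩, _, d1, r1⟩ | r1
  · rcases lst_cases e (kp D) t2 with ⟨⟨k', i', j'⟩, ⟨s', t'⟩, _, d2, r2⟩ | r2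
    · rcases lst_cases e (kp D) t3 with ⟨⟨k'', i'', j''⟩, ⟨s'', t''⟩, _, d3, r3⟩ | r3
      · have f1 := raw_shape k i j s t (r1.symm.trans h1)
        have f2 := raw_shape k' i' j' s' t' (r2.symm.trans h2)
        have f3 := raw_shape k'' i'' j'' s'' t'' (r3.symm.trans h3)
        have hk : k = 0 ∧ k' = 1 ∧ k'' = 2 := by
          rcases f1 with ⟨x, f1⟩ | ⟨x, f1⟩ | ⟨x, f1⟩ <;>
          rcases f2 with ⟨y, f2⟩ | ⟨y, f2⟩ | ⟨y, f2⟩ <;>
          rcases f3 with ⟨z, f3⟩ | ⟨z, f3⟩ | ⟨z, f3⟩ <;>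
          first
          | (exfalso; omega)
          | exact ⟨x, y, z⟩
        obtain ⟨rfl, rfl, rfl⟩ := hk
        have f1' : a = i.val * q + s.val ∧ b = g * q + (j.val * q + t.val) := by
          rcases f1 with ⟨x, f1⟩ | ⟨x, f1⟩ | ⟨x, f1⟩
          · omega
          · exact absurd x (by decide)
          · exact absurd x (by decide)
        have f2' : b = g * q + (i'.val * q + s'.val) ∧
            c = 2 * (g * q) + (j'.val * q + t'.val) := by
          rcases f2 with ⟨x, f2⟩ | ⟨x, f2⟩ | ⟨x, f2⟩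
          · exact absurd x (by decide)
          · omega
          · exact absurd x (by decide)
        have f3' : a = j''.val * q + t''.val ∧ c = 2 * (g * q) + (i''.val * q + s''.val) := by
          rcases f3 with ⟨x, f3⟩ | ⟨x, f3⟩ | ⟨x, f3⟩
          · exact absurd x (by decide)
          · exact absurd x (by decide)
          · omega
        obtain ⟨x1, x2⟩ := blk_inj s.isLt t''.isLt (f1'.1.symm.trans f3'.1)
        obtain ⟨y1, y2⟩ := blk_inj t.isLt s'.isLt
          (by omega : j.val * q + t.val = i'.val * q + s'.val)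
        obtain ⟨z1, z2⟩ := blk_inj t'.isLt s''.isLt
          (by omega : j'.val * q + t'.val = i''.val * q + s''.val)
        have x3 := Fin.ext x1
        have x4 := Fin.ext x2
        have y3 := Fin.ext y1
        have y4 := Fin.ext y2
        have z3 := Fin.ext z1
        have z4 := Fin.ext z2
        subst x3 x4 y3 y4 z3 z4
        have hcl : ∀ {c : Cel g} {v : Vl q}, kp D c = some v → D c = some v ∧
            ¬ (c.1 = 2 ∧ ∃ β : Fin g, Cl D (c.2.2, (β, c.2.1))) := by
          intro c v h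
          unfold kp at h
          split_ifs at h with h'
          exact ⟨h, h'⟩
        obtain ⟨g1, _⟩ := hcl d1
        obtain ⟨g2, _⟩ := hcl d2
        obtain ⟨g3, g4⟩ := hcl d3
        apply g4
        refine ⟨rfl, j, fun h => if h = 0 then s else if h = 1 then t else t', ?_⟩
        intro h
        fin_cases h
        · exact g1
        · exact g2
        · exact g3
      · have f3 := r3.symm.trans h3
        have f1 := raw_lt (k, (i, j)) (s, t)
        rw [← r1, h1] at f1
        unfold dum at f3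
        have := (Prod.mk.inj f3).1
        dsimp only at f1
        omega
    · have f2 := r2.symm.trans h2
      have f1 := raw_lt (k, (i, j)) (s, t)
      rw [← r1, h1] at f1
      unfold dum at f2
      have := (Prod.mk.inj f2).1
      dsimp only at f1
      omega
  · have f1 := r1.symm.trans h1
    unfold dum at f1
    obtain ⟨e1, e2⟩ := Prod.mk.inj f1
    rcases lst_cases e (kp D) t2 with ⟨c', s', _, _, r2⟩ | r2
    · have f2 := raw_lt c' s'
      rw [← r2, h2] at f2
      dsimp only at f2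
      omega
    · have f2 := r2.symm.trans h2
      unfold dum at f2
      obtain ⟨e3, e4⟩ := Prod.mk.inj f2
      omega

/-- A list with a triangle. -/
lemma lst_yes (e : Cel g ↪ Fin n) (D : Cel g → Option (Vl q)) (κ : Tri3 g) (z : Fin 3 → Fin q)
    (h : ∀ h : Fin 3, D (cel κ h) = some (z h, z (h + 1))) : Tri (lst e D) := by
  have key : ∀ h : Fin 3, lst e D (e (cel κ h)) = raw g q (cel κ h) (z h, z (h + 1)) :=
    fun h' => lst_some e (h h')
  exact ⟨e (cel κ 0), e (cel κ 1), e (cel κ 2), _, _, _, key 0, key 1, key 2⟩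

end Basic

end Pool.Agent.K7.H17.SD
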