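import Mathlib
import Pool.Agent.K7.H17.SD.Core2
import Pool.Agent.K7.H17.SD.Inst

/-!
The planted instances.
-/

set_option linter.unusedSectionVars false

namespace Pool.Agent.K7.H17.SD

open Finset DomAC0 H568R2 SmallDepth H592R3 H592R3.Hp

section Dec
variable {E V : Type} [Fintype V]

/-- The content of a row: the unique `v` that is present, if there is one. -/
noncomputable def decv (X : (E × V) → Bool) (e : E) : Option V :=
  open Classical in
  if h : ∃ r, X (e, r) = true ∧ ∀ r', X (e, r') = true → r' = r then some h.choose else none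

lemma decv_iff (X : (E × V) → Bool) (e : E) (r : V) :
    decv X e = some r ↔ X (e, r) = true ∧ ∀ r', X (e, r') = true → r' = r := by
  classical
  unfold decv
  constructor
  · intro h
    split_ifs at h with h1
    have h2 := h1.choose_spec
    rw [Option.some.injEq] at h
    rw [h] at h2
    exact h2
  · rintro ⟨h1, h2⟩
    have hex : ∃ r, X (e, r) = true ∧ ∀ r', X (e, r') = true → r' = r := ⟨r, h1, h2⟩
    rw [dif_pos hex, Option.some.injEq]
    exact h2 _ hex.choose_spec.1

lemma decv_congr {X X' : (E × V) → Bool} {e : E} (h : ∀ r, X (e, r) = X' (e, r)) :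
    decv X e = decv X' e := by
  apply Option.ext
  intro r
  rw [decv_iff, decv_iff]
  simp only [h]

lemma decv_none {X : (E × V) → Bool} {e : E} (h : ∀ r, X (e, r) = false) :
    decv X e = none := by
  cases hD : decv X e with
  | none => rfl
  | some r =>
    have := ((decv_iff X e r).1 hD).1
    rw [h r] at this
    cases this

end Dec

lemma add_three (h : Fin 3) : h + 1 ≠ h ∧ h + 1 + 1 ≠ h ∧ h + 1 + 1 + 1 = h := by
  revert h; decide

section Mixed
variable {g q n : ℕ}

/-- The plants: a triple of blocks and a vertex in each of them. -/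
abbrev Pl (g q : ℕ) : Type := Tri3 g × (Fin 3 → Fin q)

/-- The planted positions. -/
def vrt (a : Pl g q) (h : Fin 3) : Cel g × Vl q := (cel a.1 h, (a.2 h, a.2 (h + 1)))

lemma vrt_inj (a : Pl g q) : Function.Injective (vrt a) := fun h h' e =>
  congrArg (fun x => x.1.1) e

/-- The input map. -/
noncomputable def sg (e : Cel g ↪ Fin n) (X : (Cel g × Vl q) → Bool) : EBit n → Bool :=
  bits (lst e (kp (decv X)))

open Classical in
/-- The contents with some planted edges. -/
noncomputable def mixD (a : Pl g q) (X : (Cel g × Vl q) → Bool) (A : Finset (Fin 3)) :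
    Cel g → Option (Vl q) := fun c =>
  if ∃ h, cel a.1 h = c then (if ∃ h ∈ A, cel a.1 h = c then some (a.2 c.1, a.2 (c.1 + 1)) else none)
    else kp (decv X) c

/-- The good pairs. -/
def Uqt (a : Pl g q) (X : (Cel g × Vl q) → Bool) : Prop :=
  (∀ h v, X (cel a.1 h, v) = false) ∧
  ∀ (h : Fin 3) (τ : Tri3 g) (w : Fin q), cel τ h = cel a.1 h → τ ≠ a.1 →
    ¬ (X (cel τ (h + 1), (a.2 (h + 1), w)) = true ∧ X (cel τ (h + 1 + 1), (w, a.2 h)) = true)

lemma plant_vrt (a : Pl g q) (X : (Cel g × Vl q) → Bool) (A : Finset (Fin 3)) (c : Cel g)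
    (v : Vl q) : plant (vrt a) A X (c, v) = true ↔
      (∃ h ∈ A, cel a.1 h = c ∧ (a.2 h, a.2 (h + 1)) = v) ∨ X (c, v) = true := by
  unfold plant
  simp only [Bool.or_eq_true, decide_eq_true_eq]
  apply or_congr_left
  unfold vrt
  simp only [Prod.mk.injEq]

lemma plant_other (a : Pl g q) (X : (Cel g × Vl q) → Bool) (A : Finset (Fin 3)) {c : Cel g}
    (hc : ∀ h ∈ A, cel a.1 h ≠ c) (v : Vl q) : plant (vrt a) A X (c, v) = X (c, v) := by
  rw [Bool.eq_iff_iff, plant_vrt]
  constructor
  · rintro (⟨h, hA, h1, _⟩ | h1)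
    · exact absurd h1 (hc h hA)
    · exact h1
  · exact Or.inr

lemma decv_in {a : Pl g q} {X : (Cel g × Vl q) → Bool} (hU : Uqt a X) {A : Finset (Fin 3)}
    {h : Fin 3} (hA : h ∈ A) :
    decv (plant (vrt a) A X) (cel a.1 h) = some (a.2 h, a.2 (h + 1)) := by
  rw [decv_iff]
  constructor
  · rw [plant_vrt]
    exact Or.inl ⟨h, hA, rfl, rfl⟩
  · intro r' hr'
    rw [plant_vrt] at hr'
    rcases hr' with ⟨h', _, h1, h2⟩ | h1
    · obtain rfl := cel_inj _ h1
      exact h2.symm
    · rw [hU.1 h r'] at h1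
      cases h1

lemma decv_out {a : Pl g q} {X : (Cel g × Vl q) → Bool} (hU : Uqt a X) {A : Finset (Fin 3)}
    {h : Fin 3} (hA : h ∉ A) : decv (plant (vrt a) A X) (cel a.1 h) = none := by
  apply decv_none
  intro r
  rw [plant_other, hU.1 h r]
  intro h' hA' e
  exact hA (cel_inj _ e ▸ hA')

lemma decv_oth (a : Pl g q) (X : (Cel g × Vl q) → Bool) (A : Finset (Fin 3)) {c : Cel g}
    (hc : ∀ h, cel a.1 h ≠ c) : decv (plant (vrt a) A X) c = decv X c :=
  decv_congr fun r => plant_other a X A (fun h _ => hc h) r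

/-- The planted edges do not close a further triangle. -/
lemma not_cl {a : Pl g q} {X : (Cel g × Vl q) → Bool} (hU : Uqt a X) {A : Finset (Fin 3)}
    (hA : A ≠ univ) {τ : Tri3 g} {h : Fin 3} (hτ : cel τ h = cel a.1 h) :
    ¬ Cl (decv (plant (vrt a) A X)) τ := by
  rintro ⟨w, hw⟩
  by_cases hκ : τ = a.1
  · subst hκ
    apply hA
    rw [Finset.eq_univ_iff_forall]
    intro h'
    by_contra hcon
    have := hw h'
    rw [decv_out hU hcon] at this
    cases this
  · have hoth : ∀ h', h' ≠ h → ∀ h'', cel a.1 h'' ≠ cel τ h' := by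
      intro h' hh h'' e
      have e1 : h'' = h' := congrArg (fun x => x.1) e
      subst e1
      apply hκ
      exact ixt_share hh (Prod.mk.inj e).2.symm (Prod.mk.inj hτ).2
    have h0 := hw h
    rw [hτ] at h0
    have hhA : h ∈ A := by
      by_contra hcon
      rw [decv_out hU hcon] at h0
      cases h0
    rw [decv_in hU hhA, Option.some.injEq, Prod.mk.injEq] at h0
    obtain ⟨h1, h2, h3⟩ := add_three h
    have g1 := hw (h + 1)
    have g2 := hw (h + 1 + 1)
    rw [decv_oth a X A (hoth _ h1), decv_iff] at g1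
    rw [decv_oth a X A (hoth _ h2), decv_iff] at g2
    apply hU.2 h τ (w (h + 1 + 1)) hτ hκ
    rw [h0.1, h0.2]
    rw [h3] at g2
    exact ⟨g1.1, g2.1⟩

lemma cl_oth {a : Pl g q} {X : (Cel g × Vl q) → Bool} {A : Finset (Fin 3)} {τ : Tri3 g}
    (hτ : ∀ h, cel τ h ≠ cel a.1 h) :
    Cl (decv (plant (vrt a) A X)) τ ↔ Cl (decv X) τ := by
  have : ∀ h, decv (plant (vrt a) A X) (cel τ h) = decv X (cel τ h) := by
    intro h
    apply decv_oth
    intro h' e
    have e1 : h' = h := congrArg (fun x => x.1) e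
    subst e1
    exact hτ h' e.symm
  unfold Cl
  simp only [this]

lemma plant_empty (a : Pl g q) (X : (Cel g × Vl q) → Bool) : plant (vrt a) ∅ X = X := by
  funext i
  unfold plant
  simp

/-- The mixed instances are values of the input map, except for the fully planted one. -/
lemma mixD_eq {a : Pl g q} {X : (Cel g × Vl q) → Bool} (hU : Uqt a X) {A : Finset (Fin 3)}
    (hA : A ≠ univ) : mixD a X A = kp (decv (plant (vrt a) A X)) := by
  have hne : (∅ : Finset (Fin 3)) ≠ univ := by decide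
  funext c
  by_cases hc : ∃ h, cel a.1 h = c
  · obtain ⟨h, rfl⟩ := hc
    have h1 : kp (decv (plant (vrt a) A X)) (cel a.1 h) =
        decv (plant (vrt a) A X) (cel a.1 h) := by
      unfold kp
      rw [if_neg]
      rintro ⟨e2, β, hβ⟩
      have e3 : h = 2 := e2
      subst e3
      exact not_cl hU hA (τ := ((cel a.1 2).2.2, (β, (cel a.1 2).2.1))) (h := 2) rfl hβ
    rw [h1]
    unfold mixD
    rw [if_pos ⟨h, rfl⟩]
    by_cases hhA : h ∈ A
    · rw [if_pos ⟨h, hhA, rfl⟩, decv_in hU hhA]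
      rfl
    · rw [if_neg, decv_out hU hhA]
      rintro ⟨h', hh', e⟩
      exact hhA (cel_inj _ e ▸ hh')
  · have hc' : ∀ h, cel a.1 h ≠ c := fun h e => hc ⟨h, e⟩
    unfold mixD
    rw [if_neg hc]
    unfold kp
    rw [decv_oth a X A hc']
    have h2 : (∃ β : Fin g, Cl (decv (plant (vrt a) A X)) (c.2.2, (β, c.2.1))) ↔
        ∃ β : Fin g, Cl (decv X) (c.2.2, (β, c.2.1)) := by
      apply exists_congr
      intro β
      by_cases hs : ∃ h, cel (c.2.2, (β, c.2.1)) h = cel a.1 h
      · obtain ⟨h, hh⟩ := hs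
        have h3 := not_cl hU hA hh
        have h4 := not_cl hU hne hh
        rw [plant_empty] at h4
        exact iff_of_false h3 h4
      · push Not at hs
        exact cl_oth hs
    by_cases h5 : c.1 = 2 ∧ ∃ β : Fin g, Cl (decv X) (c.2.2, (β, c.2.1))
    · rw [if_pos h5, if_pos ⟨h5.1, h2.2 h5.2⟩]
    · rw [if_neg h5, if_neg (fun h6 => h5 ⟨h6.1, h2.1 h6.2⟩)]

/-- The instance with some planted edges. -/
noncomputable def mixI (e : Cel g ↪ Fin n) (a : Pl g q) (X : (Cel g × Vl q) → Bool)
    (A : Finset (Fin 3)) : EBit n → Bool := bits (lst e (mixD a X A))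

open Classical in
/-- The planted instance. -/
noncomputable def pln (e : Cel g ↪ Fin n) (a : Pl g q) (X : (Cel g × Vl q) → Bool) :
    EBit n → Bool := if Uqt a X then mixI e a X univ else sg e X

lemma mixI_eq (e : Cel g ↪ Fin n) {a : Pl g q} {X : (Cel g × Vl q) → Bool} (hU : Uqt a X)
    {A : Finset (Fin 3)} (hA : A ≠ univ) : mixI e a X A = sg e (plant (vrt a) A X) := by
  unfold mixI sg
  rw [mixD_eq hU hA]

lemma low_of_dep {F : Finset (Fin 3) → ℤ} (h : Fin 3)
    (hF : ∀ A A' : Finset (Fin 3), (h ∈ A ↔ h ∈ A') → F A = F A') : Low 1 F := by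
  intro H hH
  obtain ⟨m, hm, hmh⟩ : ∃ m ∈ H, m ≠ h := by
    by_contra hcon
    push Not at hcon
    obtain ⟨m1, m2, h1, h2, hne⟩ := Finset.one_lt_card_iff.1 hH
    exact hne ((hcon m1 h1).trans (hcon m2 h2).symm)
  apply mb_indep hm
  intro W
  apply hF
  rw [Finset.mem_insert]
  constructor
  · rintro (h1 | h1)
    · exact absurd h1.symm hmh
    · exact h1
  · exact Or.inr

lemma mixI_low (e : Cel g ↪ Fin n) (a : Pl g q) (X : (Cel g × Vl q) → Bool) (j : EBit n) :
    Low 1 (fun A : Finset (Fin 3) => if mixI e a X A j = true then (1 : ℤ) else 0) := by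
  obtain ⟨t, s, d⟩ := j
  -- the content of a cell depends on one planted position
  have hcell : ∀ c : Cel g, ∃ h : Fin 3, ∀ A A' : Finset (Fin 3), (h ∈ A ↔ h ∈ A') →
      mixD a X A c = mixD a X A' c := by
    intro c
    by_cases hc : ∃ h, cel a.1 h = c
    · obtain ⟨h, rfl⟩ := hc
      refine ⟨h, fun A A' hAA => ?_⟩
      have : ∀ B : Finset (Fin 3), (∃ h' ∈ B, cel a.1 h' = cel a.1 h) ↔ h ∈ B := by
        intro B
        constructor
        · rintro ⟨h', hh', e⟩
          exact cel_inj _ e ▸ hh'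
        · exact fun hh => ⟨h, hh, rfl⟩
      unfold mixD
      simp only [this, hAA]
    · refine ⟨0, fun A A' _ => ?_⟩
      unfold mixD
      rw [if_neg hc, if_neg hc]
  have hlst : ∃ h : Fin 3, ∀ A A' : Finset (Fin 3), (h ∈ A ↔ h ∈ A') →
      lst e (mixD a X A) t = lst e (mixD a X A') t := by
    by_cases ht : ∃ c, e c = t
    · obtain ⟨c, rfl⟩ := ht
      obtain ⟨h, hh⟩ := hcell c
      refine ⟨h, fun A A' hAA => ?_⟩
      unfold lst
      rw [e.injective.extend_apply, e.injective.extend_apply, hh A A' hAA]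
    · refine ⟨0, fun A A' _ => ?_⟩
      unfold lst
      rw [Function.extend_apply' _ _ _ ht, Function.extend_apply' _ _ _ ht]
  obtain ⟨h, hh⟩ := hlst
  apply low_of_dep h
  intro A A' hAA
  unfold mixI bits
  dsimp only
  rw [hh A A' hAA]

/-- A circuit that notices a plant has a coefficient of small or medium size. -/
lemma sens_tri (e : Cel g ↪ Fin n) (C : Circuit (EBit n)) {d : ℕ} (hd : C.depth ≤ d)
    (a : Pl g q) (X : (Cel g × Vl q) → Bool)
    (h : C.eval (sg e X) ≠ C.eval (pln e a X)) :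
    ∃ θ : Ty C (Fin 3), EvX C (sg e) (vrt (g := g) (q := q)) d 2 a X θ := by
  unfold pln at h
  by_cases hU : Uqt a X
  · rw [if_pos hU] at h
    have hne : (∅ : Finset (Fin 3)) ≠ univ := by decide
    have h0 : mixI e a X ∅ = sg e X := by
      rw [mixI_eq e hU hne, plant_empty]
    rw [← h0] at h
    refine sens_mix C (sg e) (vrt (g := g) (q := q)) (le_refl 2) hd a X (mixI e a X) ?_
      (mixI_low e a X) h
    intro A hA
    apply mixI_eq e hU
    rintro rfl
    rw [Finset.card_univ, Fintype.card_fin] at hA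
    omega
  · rw [if_neg hU] at h
    exact absurd rfl h

/-- The unplanted instances are triangle-free. -/
lemma sg_no (e : Cel g ↪ Fin n) (hgq : 3 * (g * q) ≤ n) (X : (Cel g × Vl q) → Bool) :
    ValidList (sg e X) ∧ ¬ HasTriangle (sg e X) := by
  have h := lst_lst e (kp (decv X)) hgq
  refine ⟨bits_valid h, ?_⟩
  unfold sg
  rw [bits_tri h]
  exact lst_no e _

/-- The planted instances have triangles. -/
lemma pln_yes (e : Cel g ↪ Fin n) (hgq : 3 * (g * q) ≤ n) {a : Pl g q}
    {X : (Cel g × Vl q) → Bool} (hU : Uqt a X) :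
    ValidList (pln e a X) ∧ HasTriangle (pln e a X) := by
  unfold pln
  rw [if_pos hU]
  have h := lst_lst e (mixD a X univ) hgq
  refine ⟨bits_valid h, ?_⟩
  unfold mixI
  rw [bits_tri h]
  apply lst_yes e _ a.1 a.2
  intro h'
  unfold mixD
  rw [if_pos ⟨h', rfl⟩, if_pos ⟨h', Finset.mem_univ _, rfl⟩]
  rfl

end Mixed

end Pool.Agent.K7.H17.SD
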