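import Mathlib
import Pool.Agent.K7.H17.SD.Mix
import Pool.Agent.H592R4.Rows

/-!
After a sparse random mask every input bit depends on few positions.
-/

set_option linter.unusedSectionVars false

namespace Pool.Agent.K7.H17.SD

open Finset DomAC0 H568R2 SmallDepth H592R3 H592R3.Hp

section Dep
variable {g q n : ℕ}

/-- The open positions of a row. -/
def onr (Y : (Cel g × Vl q) → Bool) (c : Cel g) : Finset (Vl q) :=
  univ.filter (fun v => Y (c, v) = true)

open Classical in
/-- The blocks with which a value can close a triangle. -/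
noncomputable def thi (Y : (Cel g × Vl q) → Bool) (k i : Fin g) (v : Vl q) : Finset (Fin g) :=
  univ.filter (fun β => ∃ b : Fin q, Y ((0, (i, β)), (v.2, b)) = true ∧
    Y ((1, (β, k)), (b, v.1)) = true)

/-- The good masks. -/
def GoodY (h : ℕ) (Y : (Cel g × Vl q) → Bool) : Prop :=
  (∀ c, (onr Y c).card ≤ h) ∧ ∀ k i v, (thi Y k i v).card ≤ h

/-- The rows on which the content of a cell depends. -/
noncomputable def rws (Y : (Cel g × Vl q) → Bool) (c : Cel g) : Finset (Cel g) :=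
  insert c ((onr Y c).biUnion fun v => (thi Y c.2.1 c.2.2 v).biUnion fun β =>
    {((0, (c.2.2, β)) : Cel g), (1, (β, c.2.1))})

/-- The positions on which the content of a cell depends. -/
noncomputable def deps (Y : (Cel g × Vl q) → Bool) (c : Cel g) : Finset (Cel g × Vl q) :=
  (rws Y c).biUnion fun c' => (onr Y c').image fun v => (c', v)

lemma deps_card {h : ℕ} (hh : 1 ≤ h) {Y : (Cel g × Vl q) → Bool} (hY : GoodY h Y) (c : Cel g) :
    (deps Y c).card ≤ 3 * h ^ 3 := by
  have h1 : ((onr Y c).biUnion fun v => (thi Y c.2.1 c.2.2 v).biUnion fun β =>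
      ({((0, (c.2.2, β)) : Cel g), (1, (β, c.2.1))} : Finset (Cel g))).card ≤ h * (h * 2) := by
    refine Finset.card_biUnion_le.trans ?_
    refine (Finset.sum_le_card_nsmul _ _ (h * 2) ?_).trans ?_
    · intro v _
      refine Finset.card_biUnion_le.trans ?_
      refine (Finset.sum_le_card_nsmul _ _ 2 (fun β _ => Finset.card_le_two)).trans ?_
      rw [smul_eq_mul]
      exact Nat.mul_le_mul_right _ (hY.2 _ _ _)
    · rw [smul_eq_mul]
      exact Nat.mul_le_mul_right _ (hY.1 c)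
  have h2 : (rws Y c).card ≤ h * (h * 2) + 1 :=
    (Finset.card_insert_le _ _).trans (Nat.add_le_add_right h1 1)
  have h3 : (deps Y c).card ≤ (h * (h * 2) + 1) * h := by
    refine Finset.card_biUnion_le.trans ?_
    refine (Finset.sum_le_card_nsmul _ _ h ?_).trans ?_
    · intro c' _
      exact Finset.card_image_le.trans (hY.1 c')
    · rw [smul_eq_mul]
      exact Nat.mul_le_mul_right _ h2
  have h4 : h ≤ h ^ 3 := by
    calc h = h ^ 1 := (pow_one h).symm
      _ ≤ h ^ 3 := Nat.pow_le_pow_right hh (by norm_num)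
  calc (deps Y c).card ≤ (h * (h * 2) + 1) * h := h3
    _ = 2 * h ^ 3 + h := by ring
    _ ≤ 3 * h ^ 3 := by omega

lemma mask_on {Y X : (Cel g × Vl q) → Bool} {c : Cel g} {v : Vl q}
    (h : decv (mask Y X) c = some v) : v ∈ onr Y c := by
  have h1 := ((decv_iff _ _ _).1 h).1
  unfold mask at h1
  rw [Bool.and_eq_true] at h1
  unfold onr
  rw [Finset.mem_filter]
  exact ⟨Finset.mem_univ _, h1.1⟩

lemma row_congr {Y : (Cel g × Vl q) → Bool} {ρ : Restr (Cel g × Vl q)}
    {x x' : (Cel g × Vl q) → Bool} {c c' : Cel g} (hx : ∀ i ∈ deps Y c, x i = x' i)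
    (hc : c' ∈ rws Y c) : decv (mask Y (ov ρ x)) c' = decv (mask Y (ov ρ x')) c' := by
  apply decv_congr
  intro r
  unfold mask ov
  by_cases hY : Y (c', r) = true
  · have h1 : (c', r) ∈ deps Y c := by
      unfold deps
      rw [Finset.mem_biUnion]
      refine ⟨c', hc, ?_⟩
      rw [Finset.mem_image]
      refine ⟨r, ?_, rfl⟩
      unfold onr
      rw [Finset.mem_filter]
      exact ⟨Finset.mem_univ _, hY⟩
    rw [hx _ h1]
  · rw [Bool.not_eq_true] at hY
    rw [hY]
    rfl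

lemma cl_dep {Y : (Cel g × Vl q) → Bool} {ρ : Restr (Cel g × Vl q)}
    {x x' : (Cel g × Vl q) → Bool} {c : Cel g} (hx : ∀ i ∈ deps Y c, x i = x' i) (hc : c.1 = 2)
    {β : Fin g} (h : Cl (decv (mask Y (ov ρ x))) (c.2.2, (β, c.2.1))) :
    Cl (decv (mask Y (ov ρ x'))) (c.2.2, (β, c.2.1)) := by
  obtain ⟨z, hz⟩ := h
  obtain ⟨k, i, j⟩ := c
  dsimp only at hc hz ⊢
  subst hc
  have z0 := hz 0
  have z1 := hz 1
  have z2 := hz 2
  have y0 := mask_on z0
  have y1 := mask_on z1
  have y2 := mask_on z2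
  have hv : (z 2, z 0) ∈ onr Y ((2, (i, j)) : Cel g) := y2
  have hβ : β ∈ thi Y i j (z 2, z 0) := by
    unfold thi
    rw [Finset.mem_filter]
    refine ⟨Finset.mem_univ _, z 1, ?_, ?_⟩
    · exact (Finset.mem_filter.1 y0).2
    · exact (Finset.mem_filter.1 y1).2
  have hin : ∀ c' ∈ ({((0, (j, β)) : Cel g), (1, (β, i))} : Finset (Cel g)),
      c' ∈ rws Y ((2, (i, j)) : Cel g) := by
    intro c' hc'
    unfold rws
    rw [Finset.mem_insert]
    right
    rw [Finset.mem_biUnion]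
    refine ⟨_, hv, ?_⟩
    rw [Finset.mem_biUnion]
    exact ⟨β, hβ, hc'⟩
  have r0 : ((0, (j, β)) : Cel g) ∈ rws Y ((2, (i, j)) : Cel g) := hin _ (by simp)
  have r1 : ((1, (β, i)) : Cel g) ∈ rws Y ((2, (i, j)) : Cel g) := hin _ (by simp)
  have r2 : ((2, (i, j)) : Cel g) ∈ rws Y ((2, (i, j)) : Cel g) := Finset.mem_insert_self _ _
  refine ⟨z, ?_⟩
  intro h
  fin_cases h
  · exact (row_congr hx r0).symm.trans z0
  · exact (row_congr hx r1).symm.trans z1
  · exact (row_congr hx r2).symm.trans z2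

lemma kp_dep {Y : (Cel g × Vl q) → Bool} {ρ : Restr (Cel g × Vl q)}
    {x x' : (Cel g × Vl q) → Bool} {c : Cel g} (hx : ∀ i ∈ deps Y c, x i = x' i) :
    kp (decv (mask Y (ov ρ x))) c = kp (decv (mask Y (ov ρ x'))) c := by
  have hx' : ∀ i ∈ deps Y c, x' i = x i := fun i hi => (hx i hi).symm
  have h1 : (c.1 = 2 ∧ ∃ β : Fin g, Cl (decv (mask Y (ov ρ x))) (c.2.2, (β, c.2.1))) ↔
      (c.1 = 2 ∧ ∃ β : Fin g, Cl (decv (mask Y (ov ρ x'))) (c.2.2, (β, c.2.1))) := by
    constructor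
    · rintro ⟨hc, β, hβ⟩
      exact ⟨hc, β, cl_dep hx hc hβ⟩
    · rintro ⟨hc, β, hβ⟩
      exact ⟨hc, β, cl_dep hx' hc hβ⟩
  unfold kp
  by_cases h2 : c.1 = 2 ∧ ∃ β : Fin g, Cl (decv (mask Y (ov ρ x))) (c.2.2, (β, c.2.1))
  · rw [if_pos h2, if_pos (h1.1 h2)]
  · rw [if_neg h2, if_neg (fun h3 => h2 (h1.2 h3))]
    exact row_congr hx (Finset.mem_insert_self _ _)

/-- For a good mask the input bits are shallow decision trees. -/
lemma bas_good (e : Cel g ↪ Fin n) {h : ℕ} (hh : 1 ≤ h) {Y : (Cel g × Vl q) → Bool}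
    (hY : GoodY h Y) (ρ : Restr (Cel g × Vl q)) :
    Bas (fun x => sg e (mask Y x)) (3 * h ^ 3) ρ := by
  rintro ⟨t, s, d⟩
  by_cases ht : ∃ c, e c = t
  · obtain ⟨c, rfl⟩ := ht
    apply DT.of_dep (deps Y c) (deps_card hh hY c)
    intro x x' hx
    show sg e (mask Y (ov ρ x)) (e c, s, d) = sg e (mask Y (ov ρ x')) (e c, s, d)
    unfold sg bits lst
    dsimp only
    rw [e.injective.extend_apply, e.injective.extend_apply, kp_dep hx]
  · apply DT.of_dep ∅ (by simp)
    intro x x' _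
    show sg e (mask Y (ov ρ x)) (t, s, d) = sg e (mask Y (ov ρ x')) (t, s, d)
    unfold sg bits lst
    dsimp only
    rw [Function.extend_apply' _ _ _ ht, Function.extend_apply' _ _ _ ht]

end Dep

section Prob
variable {g q n : ℕ}

/-- The bad events of the mask. -/
def Zb (h : ℕ) : (Cel g × (Fin (h + 1) ↪ Vl q)) ⊕
    ((Fin g × Fin g × Vl q) × ((Fin (h + 1) ↪ Fin g) × (Fin (h + 1) → Fin q))) →
    Finset (Cel g × Vl q)
  | Sum.inl (c, f) => univ.image fun j => (c, f j)
  | Sum.inr ((k, i, v), (f, b)) => (univ.image fun j => (((0, (i, f j)), (v.2, b j)) :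
      Cel g × Vl q)) ∪ univ.image fun j => (((1, (f j, k)), (b j, v.1)) : Cel g × Vl q)

lemma goodY_of {h : ℕ} {Y : (Cel g × Vl q) → Bool}
    (hY : ¬ ∃ x, ∀ i ∈ Zb (g := g) (q := q) h x, Y i = true) : GoodY h Y := by
  by_contra hcon
  apply hY
  unfold GoodY at hcon
  rw [not_and_or] at hcon
  rcases hcon with hcon | hcon
  · push Not at hcon
    obtain ⟨c, hc⟩ := hcon
    obtain ⟨f⟩ : Nonempty (Fin (h + 1) ↪ onr Y c) := by
      apply Function.Embedding.nonempty_of_card_le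
      rw [Fintype.card_fin, Fintype.card_coe]
      exact hc
    refine ⟨Sum.inl (c, f.trans (Function.Embedding.subtype _)), ?_⟩
    intro i hi
    rw [Zb, Finset.mem_image] at hi
    obtain ⟨j, _, rfl⟩ := hi
    have := (f j).2
    unfold onr at this
    exact (Finset.mem_filter.1 this).2
  · push Not at hcon
    obtain ⟨k, i, v, hc⟩ := hcon
    obtain ⟨f⟩ : Nonempty (Fin (h + 1) ↪ thi Y k i v) := by
      apply Function.Embedding.nonempty_of_card_le
      rw [Fintype.card_fin, Fintype.card_coe]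
      exact hc
    have hf : ∀ j, ∃ b : Fin q, Y ((0, (i, (f j).1)), (v.2, b)) = true ∧
        Y ((1, ((f j).1, k)), (b, v.1)) = true := by
      intro j
      have := (f j).2
      unfold thi at this
      exact (Finset.mem_filter.1 this).2
    choose b hb using hf
    refine ⟨Sum.inr ((k, i, v), (f.trans (Function.Embedding.subtype _), b)), ?_⟩
    intro x hx
    rw [Zb, Finset.mem_union, Finset.mem_image, Finset.mem_image] at hx
    rcases hx with ⟨j, _, rfl⟩ | ⟨j, _, rfl⟩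
    · exact (hb j).1
    · exact (hb j).2

lemma zb_card_inl {h : ℕ} (c : Cel g) (f : Fin (h + 1) ↪ Vl q) :
    (Zb h (Sum.inl (c, f))).card = h + 1 := by
  rw [Zb, Finset.card_image_of_injective, Finset.card_univ, Fintype.card_fin]
  intro j j' hj
  exact f.injective (Prod.mk.inj hj).2

lemma zb_card_inr {h : ℕ} (x : Fin g × Fin g × Vl q) (f : Fin (h + 1) ↪ Fin g)
    (b : Fin (h + 1) → Fin q) : (Zb h (Sum.inr (x, (f, b)))).card = 2 * (h + 1) := by
  obtain ⟨k, i, v⟩ := x
  rw [Zb, Finset.card_union_of_disjoint, Finset.card_image_of_injective,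
    Finset.card_image_of_injective, Finset.card_univ, Fintype.card_fin]
  · ring
  · intro j j' hj
    simp only [Prod.mk.injEq] at hj
    exact f.injective hj.1.2.1
  · intro j j' hj
    simp only [Prod.mk.injEq] at hj
    exact f.injective hj.1.2.2
  · rw [Finset.disjoint_left]
    intro y hy hy'
    rw [Finset.mem_image] at hy hy'
    obtain ⟨j, _, rfl⟩ := hy
    obtain ⟨j', _, hj⟩ := hy'
    have : (1 : Fin 3) = 0 := congrArg (fun x => x.1.1) hj
    exact absurd this (by decide)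

open Classical in
lemma goodY_prob {h : ℕ} {y : ℝ} (hy0 : 0 ≤ y) (hy1 : y ≤ 1) :
    Ex (vp y) (fun Y : (Cel g × Vl q) → Bool => if ¬ GoodY h Y then (1 : ℝ) else 0) ≤
      3 * (g : ℝ) ^ 2 * ((q : ℝ) ^ 2 * y) ^ (h + 1) +
      (g : ℝ) ^ 2 * (q : ℝ) ^ 2 * ((g : ℝ) * q * y ^ 2) ^ (h + 1) := by
  refine le_trans (Ex_mono (vp_nonneg hy0 hy1) (fun Y => ?_))
    ((ex_union hy0 hy1 (Zb (g := g) (q := q) h)).trans ?_)
  · by_cases hx : ∃ x, ∀ i ∈ Zb (g := g) (q := q) h x, Y i = true
    · rw [if_pos hx]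
      split_ifs <;> norm_num
    · rw [if_neg (not_not.2 (goodY_of hx)), if_neg hx]
  · rw [Fintype.sum_sum_type]
    apply add_le_add
    · have h1 : ∀ x : Cel g × (Fin (h + 1) ↪ Vl q), y ^ (Zb h (Sum.inl x)).card = y ^ (h + 1) := by
        rintro ⟨c, f⟩
        rw [zb_card_inl]
      rw [Finset.sum_congr rfl fun x _ => h1 x, Finset.sum_const, Finset.card_univ, nsmul_eq_mul]
      have h2 : Fintype.card (Fin (h + 1) ↪ Vl q) ≤ (q ^ 2) ^ (h + 1) := by
        have := Fintype.card_le_of_injective (fun f : Fin (h + 1) ↪ Vl q =>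
          (f : Fin (h + 1) → Vl q)) DFunLike.coe_injective
        rw [Fintype.card_fun, Fintype.card_prod, Fintype.card_fin, Fintype.card_fin] at this
        rwa [sq]
      have h3 : Fintype.card (Cel g × (Fin (h + 1) ↪ Vl q)) ≤ 3 * g ^ 2 * (q ^ 2) ^ (h + 1) := by
        rw [Fintype.card_prod]
        apply Nat.mul_le_mul _ h2
        rw [Fintype.card_prod, Fintype.card_prod, Fintype.card_fin, Fintype.card_fin, sq]
      have h4 : ((Fintype.card (Cel g × (Fin (h + 1) ↪ Vl q)) : ℕ) : ℝ) ≤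
          3 * (g : ℝ) ^ 2 * ((q : ℝ) ^ 2) ^ (h + 1) := by exact_mod_cast h3
      calc _ ≤ 3 * (g : ℝ) ^ 2 * ((q : ℝ) ^ 2) ^ (h + 1) * y ^ (h + 1) :=
            mul_le_mul_of_nonneg_right h4 (by positivity)
        _ = _ := by rw [mul_pow]; ring
    · have h1 : ∀ x : (Fin g × Fin g × Vl q) × ((Fin (h + 1) ↪ Fin g) × (Fin (h + 1) → Fin q)),
          y ^ (Zb h (Sum.inr x)).card = y ^ (2 * (h + 1)) := by
        rintro ⟨x, f, b⟩
        rw [zb_card_inr]
      rw [Finset.sum_congr rfl fun x _ => h1 x, Finset.sum_const, Finset.card_univ, nsmul_eq_mul]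
      have h2 : Fintype.card (Fin (h + 1) ↪ Fin g) ≤ g ^ (h + 1) := by
        have := Fintype.card_le_of_injective (fun f : Fin (h + 1) ↪ Fin g =>
          (f : Fin (h + 1) → Fin g)) DFunLike.coe_injective
        rwa [Fintype.card_fun, Fintype.card_fin, Fintype.card_fin] at this
      have h3 : Fintype.card ((Fin g × Fin g × Vl q) × ((Fin (h + 1) ↪ Fin g) ×
          (Fin (h + 1) → Fin q))) ≤ g ^ 2 * q ^ 2 * (g ^ (h + 1) * q ^ (h + 1)) := by
        rw [Fintype.card_prod, Fintype.card_prod (Fin (h + 1) ↪ Fin g)]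
        apply Nat.mul_le_mul
        · apply le_of_eq
          rw [Fintype.card_prod, Fintype.card_prod, Fintype.card_prod, Fintype.card_fin,
            Fintype.card_fin]
          ring
        · apply Nat.mul_le_mul h2
          rw [Fintype.card_fun, Fintype.card_fin, Fintype.card_fin]
      have h4 : ((Fintype.card ((Fin g × Fin g × Vl q) × ((Fin (h + 1) ↪ Fin g) ×
          (Fin (h + 1) → Fin q))) : ℕ) : ℝ) ≤
          (g : ℝ) ^ 2 * (q : ℝ) ^ 2 * ((g : ℝ) ^ (h + 1) * (q : ℝ) ^ (h + 1)) := by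
        exact_mod_cast h3
      calc _ ≤ (g : ℝ) ^ 2 * (q : ℝ) ^ 2 * ((g : ℝ) ^ (h + 1) * (q : ℝ) ^ (h + 1)) *
            y ^ (2 * (h + 1)) := mul_le_mul_of_nonneg_right h4 (by positivity)
        _ = _ := by rw [mul_pow, mul_pow, ← pow_mul]; ring

end Prob

end Pool.Agent.K7.H17.SD
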