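import Mathlib
import Pool.Agent.K7.H17.SD.Bas

/-!
Counting plants and the probability of bad plants.
-/

set_option linter.unusedSectionVars false

namespace Pool.Agent.K7.H17.SD

open Finset DomAC0 H568R2 SmallDepth H592R3 H592R3.Hp

section Count
variable {g q : ℕ}

/-- The number of plants with given planted positions. -/
def kapt (g q : ℕ) (H : Finset (Fin 3)) : ℕ :=
  if H.card = 1 then g * q else if H.card = 2 then 1 else Fintype.card (Pl g q)

lemma card_pl (g q : ℕ) : Fintype.card (Pl g q) = g ^ 3 * q ^ 3 := by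
  rw [Fintype.card_prod, Fintype.card_prod, Fintype.card_prod, Fintype.card_fun, Fintype.card_fin,
    Fintype.card_fin, Fintype.card_fin]
  ring

open Classical in
lemma cel_count (h : Fin 3) (c : Cel g) :
    (univ.filter (fun τ : Tri3 g => cel τ h = c)).card ≤ g := by
  have : (univ.filter (fun τ : Tri3 g => cel τ h = c)).card ≤ (univ : Finset (Fin g)).card := by
    apply Finset.card_le_card_of_injOn (fun τ : Tri3 g =>
      if h = 0 then τ.2.2 else if h = 1 then τ.1 else τ.2.1)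
    · intro τ _; exact Finset.mem_univ _
    · rintro ⟨a, b, d⟩ hτ ⟨a', b', d'⟩ hτ' hh
      have h1 := (Finset.mem_filter.1 hτ).2
      have h2 := (Finset.mem_filter.1 hτ').2
      have h3 := (Prod.mk.inj (h1.trans h2.symm)).2
      fin_cases h <;> simp [ixt] at h3 hh ⊢ <;> tauto
  rwa [Finset.card_univ, Fintype.card_fin] at this

lemma vrt_image {a a' : Pl g q} {H : Finset (Fin 3)}
    (h : H.image (vrt a) = H.image (vrt a')) {m : Fin 3} (hm : m ∈ H) : vrt a m = vrt a' m := by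
  have h1 : vrt a m ∈ H.image (vrt a') := by
    rw [← h]; exact Finset.mem_image_of_mem _ hm
  obtain ⟨m', _, h2⟩ := Finset.mem_image.1 h1
  have h3 : m' = m := congrArg (fun x => x.1.1) h2
  rw [← h2, h3]

lemma vrt_two {a a' : Pl g q} {m m' : Fin 3} (hm : m ≠ m') (h1 : vrt a m = vrt a' m)
    (h2 : vrt a m' = vrt a' m') : a = a' := by
  obtain ⟨κ, z⟩ := a
  obtain ⟨κ', z'⟩ := a'
  unfold vrt at h1 h2
  simp only [Prod.mk.injEq] at h1 h2
  obtain ⟨c1, e1, e2⟩ := h1
  obtain ⟨c2, e3, e4⟩ := h2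
  have hκ : κ = κ' := ixt_share hm (Prod.mk.inj c1).2 (Prod.mk.inj c2).2
  subst hκ
  congr 1
  funext k
  fin_cases m <;> fin_cases m' <;> fin_cases k <;> simp_all

open Classical in
lemma kapt_count (H : Finset (Fin 3)) (V : Finset (Cel g × Vl q)) :
    (univ.filter (fun a : Pl g q => H.image (vrt a) = V)).card ≤ kapt g q H := by
  unfold kapt
  rcases (univ.filter (fun a : Pl g q => H.image (vrt a) = V)).eq_empty_or_nonempty with
    he | ⟨a0, ha0⟩
  · rw [he]; simp
  have ha0' := (Finset.mem_filter.1 ha0).2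
  split_ifs with h1 h2
  · obtain ⟨m, rfl⟩ := Finset.card_eq_one.1 h1
    have hz : ∀ a ∈ univ.filter (fun a : Pl g q => ({m} : Finset (Fin 3)).image (vrt a) = V),
        vrt a m = vrt a0 m := by
      intro a ha
      exact vrt_image ((Finset.mem_filter.1 ha).2.trans ha0'.symm) (Finset.mem_singleton_self m)
    have : (univ.filter (fun a : Pl g q => ({m} : Finset (Fin 3)).image (vrt a) = V)).card ≤
        ((univ.filter (fun τ : Tri3 g => cel τ m = cel a0.1 m)) ×ˢ
          (univ : Finset (Fin q))).card := by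
      apply Finset.card_le_card_of_injOn (fun a : Pl g q => (a.1, a.2 (m + 1 + 1)))
      · intro a ha
        rw [Finset.mem_coe, Finset.mem_product, Finset.mem_filter]
        exact ⟨⟨Finset.mem_univ _, (Prod.mk.inj (hz a ha)).1⟩, Finset.mem_univ _⟩
      · rintro ⟨κ, z⟩ ha ⟨κ', z'⟩ ha' hh
        have f1 := (hz _ ha).trans (hz _ ha').symm
        unfold vrt at f1
        simp only [Prod.mk.injEq] at f1 hh ⊢
        refine ⟨hh.1, ?_⟩
        funext k
        fin_cases m <;> fin_cases k <;> simp_all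
    refine this.trans ?_
    rw [Finset.card_product, Finset.card_univ, Fintype.card_fin]
    exact Nat.mul_le_mul_right _ (cel_count m _)
  · obtain ⟨m, m', hmm, rfl⟩ := Finset.card_eq_two.1 h2
    rw [Finset.card_le_one]
    intro a ha a' ha'
    have h3 := (Finset.mem_filter.1 ha).2.trans (Finset.mem_filter.1 ha').2.symm
    exact vrt_two hmm (vrt_image h3 (by simp)) (vrt_image h3 (by simp))
  · exact (Finset.card_filter_le _ _).trans (le_of_eq Finset.card_univ)

lemma kapt_sum_two (c : ℝ) (B g q : ℕ) :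
    ∑ H ∈ univ.filter (fun H : Finset (Fin 3) => 2 ≤ H.card ∧ H.card ≤ 2 * 2 - 2),
      c ^ H.card * ((B ^ H.card * kapt g q H : ℕ) : ℝ) = 3 * (c ^ 2 * (B : ℝ) ^ 2) := by
  have h1 : ∀ H ∈ univ.filter (fun H : Finset (Fin 3) => 2 ≤ H.card ∧ H.card ≤ 2 * 2 - 2),
      c ^ H.card * ((B ^ H.card * kapt g q H : ℕ) : ℝ) = c ^ 2 * (B : ℝ) ^ 2 := by
    intro H hH
    have h2 := (Finset.mem_filter.1 hH).2
    have h3 : H.card = 2 := by omega
    unfold kapt
    rw [h3]
    simp
  rw [Finset.sum_congr rfl h1, Finset.sum_const]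
  have h4 : (univ.filter (fun H : Finset (Fin 3) => 2 ≤ H.card ∧ H.card ≤ 2 * 2 - 2)).card = 3 := by
    decide
  rw [h4, nsmul_eq_mul]
  norm_num

lemma kapt_sum_one (c : ℝ) (B g q : ℕ) :
    ∑ H ∈ univ.filter (fun H : Finset (Fin 3) => 1 ≤ H.card ∧ H.card < 2),
      c ^ H.card * ((B ^ H.card * kapt g q H : ℕ) : ℝ) =
      3 * (c * ((B : ℝ) * (g * q))) := by
  have h1 : ∀ H ∈ univ.filter (fun H : Finset (Fin 3) => 1 ≤ H.card ∧ H.card < 2),
      c ^ H.card * ((B ^ H.card * kapt g q H : ℕ) : ℝ) =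
      c * ((B : ℝ) * (g * q)) := by
    intro H hH
    have h2 := (Finset.mem_filter.1 hH).2
    have h3 : H.card = 1 := by omega
    unfold kapt
    rw [h3]
    simp
  rw [Finset.sum_congr rfl h1, Finset.sum_const]
  have h4 : (univ.filter (fun H : Finset (Fin 3) => 1 ≤ H.card ∧ H.card < 2)).card = 3 := by
    decide
  rw [h4, nsmul_eq_mul]
  norm_num

open Classical in
/-- The bad events for a plant. -/
def Zu (a : Pl g q) : (Fin 3 × Vl q) ⊕ ((Σ h : Fin 3, {τ : Tri3 g // cel τ h = cel a.1 h}) ×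
    Fin q) → Finset (Cel g × Vl q)
  | Sum.inl (h, v) => {(cel a.1 h, v)}
  | Sum.inr (x, w) => {(cel x.2.1 (x.1 + 1), (a.2 (x.1 + 1), w)),
      (cel x.2.1 (x.1 + 1 + 1), (w, a.2 x.1))}

lemma uqt_of {a : Pl g q} {X : (Cel g × Vl q) → Bool}
    (h : ¬ ∃ x, ∀ i ∈ Zu a x, X i = true) : Uqt a X := by
  push Not at h
  constructor
  · intro h' v
    obtain ⟨i, hi, h1⟩ := h (Sum.inl (h', v))
    rw [Zu, Finset.mem_singleton] at hi
    subst hi
    exact Bool.eq_false_iff.2 h1
  · rintro h' τ w hτ _ ⟨h1, h2⟩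
    obtain ⟨i, hi, h3⟩ := h (Sum.inr (⟨h', ⟨τ, hτ⟩⟩, w))
    rw [Zu, Finset.mem_insert, Finset.mem_singleton] at hi
    rcases hi with rfl | rfl
    · exact h3 h1
    · exact h3 h2

lemma zu_sum (a : Pl g q) (hq : 1 ≤ q) (hgq : g ≤ q ^ 3) :
    ∑ x, (1 / (24 * (q : ℝ) ^ 2)) ^ (Zu a x).card ≤ 1 / 2 := by
  classical
  obtain ⟨p, hp⟩ : ∃ p : ℝ, p = 1 / (24 * (q : ℝ) ^ 2) := ⟨_, rfl⟩
  have hq0 : (0 : ℝ) < q := by exact_mod_cast hq
  have hp0 : 0 < p := by rw [hp]; positivity
  have hpR : p * (q : ℝ) ^ 2 = 1 / 24 := by rw [hp]; field_simp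
  rw [← hp, Fintype.sum_sum_type]
  have s1 : ∑ x : Fin 3 × Vl q, p ^ (Zu a (Sum.inl x)).card = 1 / 8 := by
    have : ∀ x : Fin 3 × Vl q, p ^ (Zu a (Sum.inl x)).card = p := by
      rintro ⟨m, r⟩
      rw [Zu, Finset.card_singleton, pow_one]
    rw [Finset.sum_congr rfl fun x _ => this x, Finset.sum_const, Finset.card_univ,
      Fintype.card_prod, Fintype.card_prod, Fintype.card_fin, Fintype.card_fin, nsmul_eq_mul]
    push_cast
    nlinarith
  have s2 : ∑ x : (Σ h : Fin 3, {τ : Tri3 g // cel τ h = cel a.1 h}) × Fin q,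
      p ^ (Zu a (Sum.inr x)).card ≤ 1 / 8 := by
    have : ∀ x : (Σ h : Fin 3, {τ : Tri3 g // cel τ h = cel a.1 h}) × Fin q,
        p ^ (Zu a (Sum.inr x)).card = p ^ 2 := by
      rintro ⟨x, w⟩
      rw [Zu, Finset.card_pair]
      intro h
      have h1 : x.1 + 1 = x.1 + 1 + 1 := congrArg (fun x => x.1.1) h
      exact (add_three (x.1 + 1)).1 h1.symm
    rw [Finset.sum_congr rfl fun x _ => this x, Finset.sum_const, Finset.card_univ, nsmul_eq_mul]
    have h1 : Fintype.card ((Σ h : Fin 3, {τ : Tri3 g // cel τ h = cel a.1 h}) × Fin q) ≤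
        3 * g * q := by
      rw [Fintype.card_prod, Fintype.card_fin, Fintype.card_sigma]
      apply Nat.mul_le_mul_right
      refine (Finset.sum_le_card_nsmul _ _ g ?_).trans ?_
      · intro h _
        rw [Fintype.card_subtype]
        exact cel_count h _
      · rw [Finset.card_univ, Fintype.card_fin, smul_eq_mul]
    have h2 : ((Fintype.card ((Σ h : Fin 3, {τ : Tri3 g // cel τ h = cel a.1 h}) × Fin q) : ℕ) :
        ℝ) ≤ 3 * g * q := by exact_mod_cast h1
    have h3 : (g : ℝ) ≤ (q : ℝ) ^ 3 := by exact_mod_cast hgq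
    calc _ ≤ 3 * (g : ℝ) * q * p ^ 2 := mul_le_mul_of_nonneg_right h2 (by positivity)
      _ ≤ 3 * (q : ℝ) ^ 3 * q * p ^ 2 := by gcongr
      _ = 3 * (p * (q : ℝ) ^ 2) ^ 2 := by ring
      _ ≤ 1 / 8 := by rw [hpR]; norm_num
  rw [s1]
  linarith

end Count

end Pool.Agent.K7.H17.SD
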