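import Mathlib
import Pool.Agent.K7.H17.SD.Count
import Pool.Agent.K7.H17.SD.Param

/-!
The lower bound for triangle detection.
-/

set_option linter.unusedSectionVars false

namespace Pool.Agent.K7.H17.SD

open Finset DomAC0 H568R2 SmallDepth H592R3 H592R3.Hp

section Core
variable {g q n : ℕ}

open Classical in
lemma bas_prob (e : Cel g ↪ Fin n) {h : ℕ} (hh : 1 ≤ h) (hq : 1 ≤ q) (hgq : g ≤ q ^ 3) {y : ℝ}
    (hy : y = 1 / (12 * (q : ℝ) ^ 2)) :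
    Ex (vp y) (fun Y : (Cel g × Vl q) → Bool => Ex (wq 1) (fun ρ : Restr (Cel g × Vl q) =>
      if ¬ Bas (fun x => sg e (mask Y x)) (3 * h ^ 3) ρ then (1 : ℝ) else 0)) ≤
      3 * ((g ^ 2 + g ^ 2 * q ^ 2 : ℕ) : ℝ) * (1 / 12) ^ (h + 1) := by
  have hq0 : (0 : ℝ) < q := by exact_mod_cast hq
  have hq1 : (1 : ℝ) ≤ q := by exact_mod_cast hq
  have hy0 : 0 ≤ y := by rw [hy]; positivity
  have hqq : (1 : ℝ) ≤ (q : ℝ) ^ 2 := one_le_pow₀ hq1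
  have hy1 : y ≤ 1 := by
    rw [hy, div_le_one (by positivity)]
    linarith
  have hw1 : ∀ a, 0 ≤ wq (1 : ℝ) a := wq_nonneg zero_le_one (le_refl _)
  have hpt : ∀ Y : (Cel g × Vl q) → Bool, Ex (wq 1) (fun ρ : Restr (Cel g × Vl q) =>
      if ¬ Bas (fun x => sg e (mask Y x)) (3 * h ^ 3) ρ then (1 : ℝ) else 0) ≤
      (if ¬ GoodY h Y then (1 : ℝ) else 0) := by
    intro Y
    have h1 : Ex (wq 1) (fun ρ : Restr (Cel g × Vl q) =>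
      if ¬ Bas (fun x => sg e (mask Y x)) (3 * h ^ 3) ρ then (1 : ℝ) else 0) ≤
      Ex (wq 1) (fun _ : Restr (Cel g × Vl q) => (if ¬ GoodY h Y then (1 : ℝ) else 0)) := by
      apply Ex_mono hw1
      intro ρ
      by_cases hY : GoodY h Y
      · rw [if_neg (not_not.2 (bas_good e hh hY ρ)), if_neg (not_not.2 hY)]
      · rw [if_pos hY]
        split_ifs <;> norm_num
    rwa [Ex_const (wq_sum 1)] at h1
  refine (Ex_mono (vp_nonneg hy0 hy1) hpt).trans ((goodY_prob hy0 hy1).trans ?_)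
  have e1 : (q : ℝ) ^ 2 * y = 1 / 12 := by rw [hy]; field_simp
  have e2 : (g : ℝ) * q * y ^ 2 ≤ 1 / 12 := by
    have h3 : (g : ℝ) ≤ (q : ℝ) ^ 3 := by exact_mod_cast hgq
    calc (g : ℝ) * q * y ^ 2 ≤ (q : ℝ) ^ 3 * q * y ^ 2 := by gcongr
      _ = ((q : ℝ) ^ 2 * y) ^ 2 := by ring
      _ ≤ 1 / 12 := by rw [e1]; norm_num
  have e3 : ((g : ℝ) * q * y ^ 2) ^ (h + 1) ≤ (1 / 12) ^ (h + 1) :=
    pow_le_pow_left₀ (by positivity) e2 _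
  rw [e1]
  push_cast
  have e4 : (g : ℝ) ^ 2 * (q : ℝ) ^ 2 * ((g : ℝ) * q * y ^ 2) ^ (h + 1) ≤
      (g : ℝ) ^ 2 * (q : ℝ) ^ 2 * (1 / 12) ^ (h + 1) :=
    mul_le_mul_of_nonneg_left e3 (by positivity)
  have e5 : 0 ≤ (g : ℝ) ^ 2 * (q : ℝ) ^ 2 * (1 / 12 : ℝ) ^ (h + 1) := by positivity
  calc _ ≤ 3 * (g : ℝ) ^ 2 * (1 / 12) ^ (h + 1) +
        (g : ℝ) ^ 2 * (q : ℝ) ^ 2 * (1 / 12) ^ (h + 1) := by linarith
    _ ≤ _ := by linarith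

open Classical in
/-- The lower bound. -/
theorem tri_core (e : Cel g ↪ Fin n) (hg : 1 ≤ g) (hq : 1 ≤ q) (hgq : g ≤ q ^ 3)
    (G : Game (EBit n)) {d S gg : ℕ} (hG : G.Bounded d S gg) {h l : ℕ} (hh : 1 ≤ h)
    (hlen : Fintype.card (EBit n) + S + 2 ≤ 2 ^ l)
    (hpt : ∀ X : (Cel g × Vl q) → Bool,
      ∑ a : Pl g q, (1 / 3) * (1 - (if ¬ Uqt a X then (1 : ℝ) else 0)) ≤
        msP (pln e) (sg e) G X)
    (hN1 : 165888 * ((S : ℝ) * (24 * (3 * (h : ℝ) ^ 3)) ^ (2 * d) * (3 * (h : ℝ) ^ 3) ^ 2 *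
        (l : ℝ) ^ 2) * q + 3456 * ((24 * (3 * (h : ℝ) ^ 3)) ^ d * (3 * (h : ℝ) ^ 3)) * g ≤
        (g : ℝ) ^ 3)
    (hN2 : (2 : ℝ) ^ gg * 6 ^ (gg + 2) * (gg + 2) * (((S : ℝ) + 1) * 8 *
      (24 * ((q ^ 2 : ℕ) : ℝ) * (24 * (3 * (h : ℝ) ^ 3)) ^ d) ^ 4) *
      (3 * ((g ^ 2 + g ^ 2 * q ^ 2 : ℕ) : ℝ) * (1 / 12) ^ (h + 1) +
        d * ((S * (Fintype.card (EBit n) + S + 1) : ℕ) : ℝ) * (1 / 2) ^ (h + 1)) < 1 / 2) :
    False := by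
  have hqR : (0 : ℝ) < q := by exact_mod_cast hq
  have hqR1 : (1 : ℝ) ≤ q := by exact_mod_cast hq
  have hgR : (1 : ℝ) ≤ g := by exact_mod_cast hg
  have hhR : (1 : ℝ) ≤ h := by exact_mod_cast hh
  obtain ⟨R, hRdef⟩ : ∃ R : ℝ, R = (q : ℝ) ^ 2 := ⟨_, rfl⟩
  have hR1 : 1 ≤ R := by rw [hRdef]; exact one_le_pow₀ hqR1
  have hRR : 0 < R := by linarith
  obtain ⟨h', hh'⟩ : ∃ h' : ℕ, h' = 3 * h ^ 3 := ⟨_, rfl⟩
  obtain ⟨k, hk⟩ : ∃ k : ℝ, k = 3 * (h : ℝ) ^ 3 := ⟨_, rfl⟩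
  have hkh : (h' : ℝ) = k := by rw [hh', hk]; push_cast; ring
  have hhle : h ≤ h' := by
    have h4 : h ≤ h ^ 3 := by
      calc h = h ^ 1 := (pow_one h).symm
        _ ≤ h ^ 3 := Nat.pow_le_pow_right hh (by norm_num)
    omega
  have hk1 : 1 ≤ k := by
    rw [← hkh]
    exact_mod_cast hh.trans hhle
  have hk0 : 0 < k := by linarith
  rw [← hk] at hN1 hN2
  obtain ⟨τ, hτ⟩ : ∃ τ : ℕ, τ = 24 * h' := ⟨_, rfl⟩
  have hτR : (τ : ℝ) = 24 * k := by rw [hτ]; push_cast; rw [hkh]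
  have hτ1 : (1 : ℝ) ≤ (24 * k) ^ d := one_le_pow₀ (by linarith)
  obtain ⟨y, hy⟩ : ∃ y : ℝ, y = 1 / (12 * (q : ℝ) ^ 2) := ⟨_, rfl⟩
  have hyR : y = 1 / (12 * R) := by rw [hy, hRdef]
  have hy0 : 0 < y := by rw [hy]; positivity
  have hy1 : y ≤ 1 := by
    rw [hyR, div_le_one (by positivity)]; linarith
  have hy2 : y / 2 = 1 / (24 * (q : ℝ) ^ 2) := by rw [hy]; field_simp; ring
  obtain ⟨p, hp⟩ : ∃ p : ℝ, p = 1 * (1 / (τ : ℝ)) ^ d := ⟨_, rfl⟩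
  obtain ⟨c, hc⟩ : ∃ c : ℝ, c = 24 * R * (24 * k) ^ d := ⟨_, rfl⟩
  have hc1 : 1 ≤ c := by
    rw [hc]
    nlinarith
  have hcyp : 2 ≤ c * (y * p) := by
    rw [hc, hyR, hp, hτR, one_mul, one_div_pow]
    apply le_of_eq
    field_simp
    norm_num
  obtain ⟨ε, hε⟩ : ∃ ε : ℝ, ε = 3 * ((g ^ 2 + g ^ 2 * q ^ 2 : ℕ) : ℝ) * (1 / 12) ^ (h + 1) +
        d * ((S * (Fintype.card (EBit n) + S + 1) : ℕ) : ℝ) * (1 / 2) ^ (h + 1) := ⟨_, rfl⟩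
  have hcR : 24 * ((q ^ 2 : ℕ) : ℝ) * (24 * k) ^ d = c := by
    rw [hc, hRdef]; push_cast; ring
  rw [hcR, ← hε] at hN2
  have hbas := bas_prob e hh hq hgq hy
  rw [← hh'] at hbas
  have hε2 : 3 * ((g ^ 2 + g ^ 2 * q ^ 2 : ℕ) : ℝ) * (1 / 12) ^ (h + 1) +
      d * ((S * (Fintype.card (EBit n) + S + 1) : ℕ) : ℝ) *
        (12 * (h' : ℝ) * (1 / (τ : ℝ))) ^ (h' + 1) ≤ ε := by
    rw [hε, hτR, hkh]
    have e1 : 12 * k * (1 / (24 * k)) = 1 / 2 := by field_simp; norm_num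
    rw [e1]
    have e2 : (1 / 2 : ℝ) ^ (h' + 1) ≤ (1 / 2) ^ (h + 1) :=
      pow_le_pow_of_le_one (by norm_num) (by norm_num) (by omega)
    have e3 := mul_le_mul_of_nonneg_left e2
      (by positivity : 0 ≤ d * ((S * (Fintype.card (EBit n) + S + 1) : ℕ) : ℝ))
    linarith
  obtain ⟨T, hT⟩ : ∃ T : ℕ, T = Fintype.card (Pl g q) := ⟨_, rfl⟩
  have hTR : (T : ℝ) = (g : ℝ) ^ 3 * (q : ℝ) ^ 3 := by
    rw [hT, card_pl]; push_cast; ring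
  have hT0 : (0 : ℝ) < T := by rw [hTR]; positivity
  obtain ⟨Bg, hBg⟩ : ∃ Bg : ℝ, Bg = 3 * (c ^ 2 * ((2 * (h' * l) : ℕ) : ℝ) ^ 2) := ⟨_, rfl⟩
  obtain ⟨Bs, hBs⟩ : ∃ Bs : ℝ, Bs = 3 * (c * (((2 * h' : ℕ) : ℝ) * (g * q))) := ⟨_, rfl⟩
  have hBN : 24 * (S * Bg + Bs) ≤ T := by
    have h1 : 24 * (S * Bg + Bs) = (q : ℝ) ^ 3 * (165888 * ((S : ℝ) * (24 * k) ^ (2 * d) *
        k ^ 2 * (l : ℝ) ^ 2) * q + 3456 * ((24 * k) ^ d * k) * g) := by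
      rw [hBg, hBs, hc, hRdef]
      push_cast
      rw [hkh, pow_mul' (24 * k) 2 d]
      ring
    rw [h1, hTR, mul_comm]
    exact mul_le_mul_of_nonneg_right hN1 (by positivity)
  have hBg0 : 0 ≤ Bg := by rw [hBg]; positivity
  have hBs0 : 0 ≤ Bs := by
    rw [hBs]
    have : 0 ≤ c := by linarith
    positivity
  have hSB0 : 0 ≤ S * Bg + Bs := by positivity
  have hmain := game_core (pln e) (vrt (g := g) (q := q)) vrt_inj (kapt g q)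
    kapt_count G (sg e)
    (h := h') (d := d) (τ := τ) (by omega) hG (L := 2) (l := l)
    (fun C hC a X hX => sens_tri e C hC a X hX) hlen
    hy0 hy1 (q0 := 1) (by norm_num) (le_refl _) hp hbas hcyp hc1 hε2
    (Bg := Bg) (Bs := Bs) (by rw [kapt_sum_two, hBg]) (by rw [kapt_sum_one, hBs])
    (by rw [← hT]; linarith) (gg + 2)
    Uqt (by
      intro a
      rw [hy2]
      have h24 : (0 : ℝ) ≤ 1 / (24 * (q : ℝ) ^ 2) := by positivity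
      have h24' : 1 / (24 * (q : ℝ) ^ 2) ≤ 1 := by
        rw [div_le_one (by positivity), ← hRdef]; linarith
      refine le_trans (Ex_mono (vp_nonneg h24 h24') fun X => ?_)
        ((ex_union h24 h24' (Zu a)).trans (zu_sum a hq hgq))
      by_cases hX : ∃ x, ∀ i ∈ Zu a x, X i = true
      · rw [if_pos hX]
        split_ifs <;> norm_num
      · rw [if_neg (not_not.2 (uqt_of hX))]
        split_ifs <;> norm_num) hpt
  rw [← hT, Fintype.card_fin] at hmain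
  -- the contradiction
  obtain ⟨W, hW⟩ : ∃ W : ℝ, W = ((S : ℝ) + 1) * 8 * c ^ 4 := ⟨_, rfl⟩
  rw [← hW] at hN2
  have e1 : ((S : ℝ) + 1) * 2 ^ 3 * c ^ (2 * 2) = W := by rw [hW]; norm_num
  rw [e1] at hmain
  have h3 : (S * Bg + Bs) ^ (gg + 2) ≤ (T / 24 : ℝ) ^ (gg + 2) :=
    pow_le_pow_left₀ hSB0 (by linarith) _
  have h4 : ((T : ℝ) / 6) ^ (gg + 2) = (T : ℝ) ^ (gg + 2) * (1 / 6) ^ (gg + 2) := by
    rw [← mul_pow]; congr 1; ring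
  have h5 : ((T : ℝ) / 24) ^ (gg + 2) = (T : ℝ) ^ (gg + 2) * (1 / 6) ^ (gg + 2) *
      (1 / 4) ^ (gg + 2) := by
    rw [← mul_pow, ← mul_pow]; congr 1; ring
  have h6 : (2 : ℝ) ^ gg * (1 / 4) ^ (gg + 2) ≤ 1 / 16 := by
    rw [pow_add, ← mul_assoc, ← mul_pow]
    have : ((2 : ℝ) * (1 / 4)) ^ gg ≤ 1 := pow_le_one₀ (by norm_num) (by norm_num)
    nlinarith
  obtain ⟨U, hU⟩ : ∃ U : ℝ, U = (T : ℝ) ^ (gg + 2) * (1 / 6) ^ (gg + 2) := ⟨_, rfl⟩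
  have hU0 : 0 < U := by rw [hU]; positivity
  have h7 : (2 : ℝ) ^ gg * (((gg + 2 : ℕ) : ℝ) * (T : ℝ) ^ (gg + 2) * W * ε) =
      U * (2 ^ gg * 6 ^ (gg + 2) * (gg + 2) * W * ε) := by
    rw [hU]
    push_cast
    have : (1 / 6 : ℝ) ^ (gg + 2) * 6 ^ (gg + 2) = 1 := by
      rw [← mul_pow]; norm_num
    calc (2 : ℝ) ^ gg * (((gg : ℝ) + 2) * (T : ℝ) ^ (gg + 2) * W * ε) =
        (T : ℝ) ^ (gg + 2) * ((1 / 6 : ℝ) ^ (gg + 2) * 6 ^ (gg + 2)) *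
          (2 ^ gg * (gg + 2) * W * ε) := by rw [this]; ring
      _ = _ := by ring
  have h8 : U ≤ 2 ^ gg * (U * (1 / 4) ^ (gg + 2)) +
      U * (2 ^ gg * 6 ^ (gg + 2) * (gg + 2) * W * ε) := by
    calc U = ((T : ℝ) / 6) ^ (gg + 2) := by rw [h4, hU]
      _ ≤ 2 ^ gg * ((S * Bg + Bs) ^ (gg + 2) +
          ((gg + 2 : ℕ) : ℝ) * (T : ℝ) ^ (gg + 2) * W * ε) := hmain
      _ = 2 ^ gg * (S * Bg + Bs) ^ (gg + 2) +
          2 ^ gg * (((gg + 2 : ℕ) : ℝ) * (T : ℝ) ^ (gg + 2) * W * ε) := by ring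
      _ ≤ 2 ^ gg * (T / 24 : ℝ) ^ (gg + 2) +
          2 ^ gg * (((gg + 2 : ℕ) : ℝ) * (T : ℝ) ^ (gg + 2) * W * ε) := by gcongr
      _ = _ := by rw [h5, h7, hU]
  have h9 : 2 ^ gg * (U * (1 / 4) ^ (gg + 2)) ≤ U * (1 / 16) := by
    calc 2 ^ gg * (U * (1 / 4) ^ (gg + 2)) = U * (2 ^ gg * (1 / 4) ^ (gg + 2)) := by ring
      _ ≤ _ := mul_le_mul_of_nonneg_left h6 hU0.le
  have h10 : U * (2 ^ gg * 6 ^ (gg + 2) * (gg + 2) * W * ε) ≤ U * (1 / 2) := by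
    apply mul_le_mul_of_nonneg_left _ hU0.le
    exact hN2.le
  linarith

end Core

lemma exists_q (n : ℕ) (hn : 3 ≤ n) : ∃ q : ℕ, 1 ≤ q ∧ 3 * q ^ 6 ≤ n ∧ n ≤ 192 * q ^ 6 := by
  have hex : ∃ m, n < 3 * (m + 1) ^ 6 := by
    refine ⟨n, ?_⟩
    have : n + 1 ≤ (n + 1) ^ 6 := by
      calc n + 1 = (n + 1) ^ 1 := (pow_one _).symm
        _ ≤ (n + 1) ^ 6 := Nat.pow_le_pow_right (by omega) (by norm_num)
    omega
  have h1 := Nat.find_spec hex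
  obtain ⟨q, hq⟩ : ∃ q, q = Nat.find hex := ⟨_, rfl⟩
  rw [← hq] at h1
  have hq1 : 1 ≤ q := by
    by_contra hcon
    have : q = 0 := by omega
    rw [this] at h1
    norm_num at h1
    omega
  have h2 := Nat.find_min hex (m := q - 1) (by omega)
  have e1 : q - 1 + 1 = q := by omega
  rw [e1, not_lt] at h2
  refine ⟨q, hq1, h2, ?_⟩
  have h3 : (q + 1) ^ 6 ≤ (2 * q) ^ 6 := Nat.pow_le_pow_left (by omega) 6
  have h4 : (2 * q) ^ 6 = 64 * q ^ 6 := by ring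
  omega

open Classical in
/-- The general form of the lower bound. -/
theorem tri_main (ε : ℝ) (hε : 0 < ε) : ∃ C : ℝ, 0 < C ∧ ∀ n d gg S : ℕ, 2 ≤ n → 1 ≤ d →
    C * (d * Real.log (Real.log n + gg + 2)) ≤ Real.log n →
    ∀ G : Game (EBit n), G.Bounded d S gg →
    (∀ (g q : ℕ) (e : Cel g ↪ Fin n), 3 * (g * q) ≤ n →
      ∀ X : (Cel g × Vl q) → Bool,
      ∑ a : Pl g q, (1 / 3) * (1 - (if ¬ Uqt a X then (1 : ℝ) else 0)) ≤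
        msP (pln e) (sg e) G X) →
    (n : ℝ) ^ (4 / 3 - ε) < S := by
  obtain ⟨C, hC, hpar⟩ := params6 ε hε
  refine ⟨C, hC, ?_⟩
  intro n d gg S hn hd hcond G hG hpt
  by_contra hcon
  rw [not_lt] at hcon
  obtain ⟨h, l, hh, c1, c2, hrest⟩ := hpar n d gg hn hd hcond (4 / 3) (by norm_num) S hcon
  have hhR : (1 : ℝ) ≤ h := by exact_mod_cast hh
  -- n is large
  have hk1 : (1 : ℝ) ≤ 3 * (h : ℝ) ^ 3 := by
    have : (1 : ℝ) ≤ (h : ℝ) ^ 3 := one_le_pow₀ hhR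
    linarith
  have hbig : (10 : ℝ) ^ 9 ≤ n := by
    refine le_trans ?_ c2
    have h1 : (1 : ℝ) ≤ (24 * (3 * (h : ℝ) ^ 3)) ^ d := one_le_pow₀ (by linarith)
    have h2 : (1 : ℝ) ≤ (24 * (3 * (h : ℝ) ^ 3)) ^ d * (3 * (h : ℝ) ^ 3) := by nlinarith
    linarith
  have hbig' : 10 ^ 9 ≤ n := by exact_mod_cast hbig
  obtain ⟨q, hq1, hq2, hq3⟩ := exists_q n (by omega)
  obtain ⟨g, hg⟩ : ∃ g, g = q ^ 3 := ⟨_, rfl⟩
  have hg1 : 1 ≤ g := by rw [hg]; exact Nat.one_le_pow _ _ hq1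
  have hgq : 3 * (g * q) ≤ n := by
    refine le_trans ?_ hq2
    have : g * q ≤ q ^ 6 := by
      calc g * q = q ^ 4 := by rw [hg]; ring
        _ ≤ q ^ 6 := Nat.pow_le_pow_right hq1 (by norm_num)
    omega
  obtain ⟨e⟩ : Nonempty (Cel g ↪ Fin n) := by
    apply Function.Embedding.nonempty_of_card_le
    rw [Fintype.card_prod, Fintype.card_prod, Fintype.card_fin, Fintype.card_fin,
      Fintype.card_fin, hg]
    calc 3 * (q ^ 3 * q ^ 3) = 3 * q ^ 6 := by ring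
      _ ≤ n := hq2
  have hF : g ^ 2 + g ^ 2 * q ^ 2 ≤ n ^ 2 := by
    have h1 : (3 * q ^ 6) ^ 2 ≤ n ^ 2 := Nat.pow_le_pow_left hq2 2
    have h2 : (3 * q ^ 6) ^ 2 = 9 * q ^ 12 := by ring
    have h3 : g ^ 2 = q ^ 6 := by rw [hg]; ring
    have h4 : q ^ 6 ≤ q ^ 12 := Nat.pow_le_pow_right hq1 (by norm_num)
    have h5 : q ^ 6 * q ^ 2 ≤ q ^ 12 := by
      rw [← pow_add]; exact Nat.pow_le_pow_right hq1 (by norm_num)
    rw [h3]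
    omega
  have hRn : q ^ 2 ≤ n ^ 4 := by
    calc q ^ 2 ≤ q ^ 6 := Nat.pow_le_pow_right hq1 (by norm_num)
      _ ≤ n := by omega
      _ = n ^ 1 := (pow_one n).symm
      _ ≤ n ^ 4 := Nat.pow_le_pow_right (by omega) (by norm_num)
  obtain ⟨hlen, hN2⟩ := hrest (Fintype.card (EBit n)) (g ^ 2 + g ^ 2 * q ^ 2) (q ^ 2)
    (card_ebit n (by omega)) hF hRn
  refine tri_core e hg1 hq1 (le_of_eq hg) G hG (h := h) (l := l) hh hlen (hpt g q e hgq) ?_ hN2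
  -- the first condition
  have hqR : (1 : ℝ) ≤ q := by exact_mod_cast hq1
  have hq0 : (0 : ℝ) < q := by linarith
  have hgR : (g : ℝ) = (q : ℝ) ^ 3 := by rw [hg]; push_cast; ring
  have hnq : (n : ℝ) ≤ 192 * (q : ℝ) ^ 6 := by exact_mod_cast hq3
  have hn0 : (0 : ℝ) ≤ n := by positivity
  have hB : (n : ℝ) ^ (4 / 3 : ℝ) ≤ 36864 * (q : ℝ) ^ 8 := by
    calc (n : ℝ) ^ (4 / 3 : ℝ) ≤ (192 * (q : ℝ) ^ 6) ^ (4 / 3 : ℝ) :=
          Real.rpow_le_rpow hn0 hnq (by norm_num)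
      _ = (192 : ℝ) ^ (4 / 3 : ℝ) * ((q : ℝ) ^ 6) ^ (4 / 3 : ℝ) :=
          Real.mul_rpow (by norm_num) (by positivity)
      _ ≤ 36864 * (q : ℝ) ^ 8 := by
          have h1 : (192 : ℝ) ^ (4 / 3 : ℝ) ≤ 36864 := by
            calc (192 : ℝ) ^ (4 / 3 : ℝ) ≤ (192 : ℝ) ^ (2 : ℝ) :=
                  Real.rpow_le_rpow_of_exponent_le (by norm_num) (by norm_num)
              _ = 36864 := by norm_num
          have h2 : ((q : ℝ) ^ 6) ^ (4 / 3 : ℝ) = (q : ℝ) ^ 8 := by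
            rw [← Real.rpow_natCast, ← Real.rpow_mul hq0.le, ← Real.rpow_natCast]
            congr 1
            norm_num
          rw [h2]
          exact mul_le_mul_of_nonneg_right h1 (by positivity)
  obtain ⟨P, hP⟩ : ∃ P : ℝ, P = (S : ℝ) * (24 * (3 * (h : ℝ) ^ 3)) ^ (2 * d) *
    (3 * (h : ℝ) ^ 3) ^ 2 * (l : ℝ) ^ 2 := ⟨_, rfl⟩
  obtain ⟨Q, hQ⟩ : ∃ Q : ℝ, Q = (24 * (3 * (h : ℝ) ^ 3)) ^ d * (3 * (h : ℝ) ^ 3) := ⟨_, rfl⟩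
  rw [← hP] at c1 ⊢
  rw [← hQ] at c2 ⊢
  rw [hgR]
  have hP2 : P * 10 ^ 12 ≤ 36864 * (q : ℝ) ^ 8 := by linarith
  have hQ2 : Q * 10 ^ 9 ≤ 192 * (q : ℝ) ^ 6 := by linarith
  have f1 : 165888 * P * q ≤ (1 / 2) * (q : ℝ) ^ 9 := by
    have : 165888 * P ≤ (1 / 2) * (q : ℝ) ^ 8 := by
      have : 0 < (q : ℝ) ^ 8 := by positivity
      nlinarith
    calc 165888 * P * q ≤ (1 / 2) * (q : ℝ) ^ 8 * q := by gcongr
      _ = _ := by ring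
  have f2 : 3456 * Q * (q : ℝ) ^ 3 ≤ (1 / 2) * (q : ℝ) ^ 9 := by
    have : 3456 * Q ≤ (1 / 2) * (q : ℝ) ^ 6 := by
      have : 0 < (q : ℝ) ^ 6 := by positivity
      nlinarith
    calc 3456 * Q * (q : ℝ) ^ 3 ≤ (1 / 2) * (q : ℝ) ^ 6 * (q : ℝ) ^ 3 := by gcongr
      _ = _ := by ring
  have f3 : ((q : ℝ) ^ 3) ^ 3 = (q : ℝ) ^ 9 := by ring
  rw [f3]
  linarith

/-- The lower bound for interactive proofs of triangle-freeness. -/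
theorem tri_game (ε : ℝ) (hε : 0 < ε) : ∃ C : ℝ, 0 < C ∧ ∀ n d gg S : ℕ, 2 ≤ n → 1 ≤ d →
    C * (d * Real.log (Real.log n + gg + 2)) ≤ Real.log n →
    ∀ G : Game (EBit n), G.Bounded d S gg →
    (∀ z, ValidList z → ¬ HasTriangle z → 2 / 3 ≤ G.value z) →
    (∀ z, ValidList z → HasTriangle z → G.value z ≤ 1 / 3) →
    (n : ℝ) ^ (4 / 3 - ε) < S := by
  obtain ⟨C, hC, h⟩ := tri_main ε hε
  refine ⟨C, hC, ?_⟩
  intro n d gg S hn hd hcond G hG hyes hno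
  apply h n d gg S hn hd hcond G hG
  intro g q e hgq X
  refine game_pt (pln e) (sg e) G hG Uqt ?_ ?_ X
  · intro a X hU
    have := sg_no e hgq X
    exact hyes _ this.1 this.2
  · intro a X hU
    have := pln_yes e hgq hU
    exact hno _ this.1 this.2

/-- The lower bound for randomized circuits. -/
theorem tri_rand (ε : ℝ) (hε : 0 < ε) : ∃ C : ℝ, 0 < C ∧ ∀ n d S : ℕ, 2 ≤ n → 1 ≤ d →
    C * (d * Real.log (Real.log n + 2)) ≤ Real.log n →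
    ∀ Rc : RandCircuit (EBit n), Rc.Bounded d S →
    (∀ z, ValidList z → Rc.Correct z (HasTriangle z)) →
    (n : ℝ) ^ (4 / 3 - ε) < S := by
  obtain ⟨C, hC, h⟩ := tri_main ε hε
  refine ⟨C, hC, ?_⟩
  intro n d S hn hd hcond Rc hRc hcor
  let _ := Rc.fin
  obtain ⟨eq⟩ : Nonempty (Rc.Ω ≃ Fin (Fintype.card Rc.Ω)) := ⟨Fintype.equivFin Rc.Ω⟩
  have hp1 : ∑ i, Rc.prob (eq.symm i) = 1 := by
    rw [← Rc.total]
    exact Equiv.sum_comp eq.symm Rc.prob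
  apply h n d 0 S hn hd (by
    simpa using hcond) (Game.arthur (Fintype.card Rc.Ω) (fun i => Rc.prob (eq.symm i))
      (fun i => .verify (Rc.circ (eq.symm i))))
    ⟨fun i => Rc.nonneg _, hp1, fun i => ⟨(hRc _).1, (hRc _).2⟩⟩
  intro g q e hgq X
  refine rand_pt (pln e) (sg e) _ (fun i => Rc.nonneg _) hp1 _ Uqt ?_ ?_ X
  · intro a X hU
    have hv := sg_no e hgq X
    have h1 := hcor _ hv.1
    unfold RandCircuit.Correct at h1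
    simp only [hv.2, decide_false] at h1
    refine h1.trans (le_of_eq ?_)
    exact (Equiv.sum_comp eq.symm (fun ω =>
      if (Rc.circ ω).eval (sg e X) = false then Rc.prob ω else 0)).symm
  · intro a X hU
    have hv := pln_yes e hgq hU
    have h1 := hcor _ hv.1
    unfold RandCircuit.Correct at h1
    simp only [hv.2, decide_true] at h1
    refine h1.trans (le_of_eq ?_)
    exact (Equiv.sum_comp eq.symm (fun ω =>
      if (Rc.circ ω).eval (pln e a X) = true then Rc.prob ω else 0)).symm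

end Pool.Agent.K7.H17.SD
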